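import Pool.Agent.H22.DI.ResB

/-!
# The dichotomy for hereditary classes of graphs with finite basis and without `K_(t,t)` (module RES)
-/

set_option autoImplicit false

namespace Pool.H22.DI

open Set Function Pool.H22.D Pool.H63.MQ

variable {t : ℕ} {F : Set (Σ n : ℕ, SimpleGraph (Fin n))}

private theorem sv_of_dich {T : Type} [TopologicalSpace T] {C : Set (Mx T)} (h : Dich IsoM C) :
    SV C := by
  intro B hBC hB hinv
  rcases h B hB hinv with ⟨D, hD, h1⟩ | h1
  · exact Or.inl ⟨D, hD, fun x hx => h1 x hx (hBC hx)⟩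
  · exact Or.inr h1

theorem hereditary_dichotomy (ht : 2 ≤ t) (hF : F.Finite) :
    SV (Hg t F) ↔ (∃ H ∈ F, H.2.IsContained Stars) ∨ Q1 := by
  constructor
  · intro hS
    by_cases h : ∃ H ∈ F, H.2.IsContained Stars
    · exact Or.inl h
    · exact Or.inr (hg_hard ht hF h hS)
  · rintro (h | h)
    · exact sv_of_dich (Dich.mono (dich_sparse 1) (fun y hy => hg_sparse hy h))
    · exact sv_of_dich (dich_of_q1 h _)

end Pool.H22.DI
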