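import Pool.Agent.H22.DI.Df

/-!
# Homogeneous subdivisions (module SBB)

`sbd_comp`: subsequences. `exists_cln`: infinite Ramsey theorem (`ramseyN` of `H17/TA/Ram.lean`) for increasing
4-tuples, colour of `t : Fin 4 → ℕ`: the truth values of all statements `G.Adj (s (t 0)) (s (t 1))`,
`G.Adj (s (t 0)) (x (t 1) (t 2) c)`, `G.Adj (x (t 0) (t 1) c) (s (t 2))`, `G.Adj (x (t 0) (t 1) c) (x (t 1) (t 2) c')`,
`G.Adj (x (t 0) (t 1) c) (x (t 2) (t 3) c')` for `c, c' < r` (a finite type, e.g. `Fin 5 → Fin r → Fin r → Prop`).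
In the homogeneous subsequence every one of them is false (for `0 < c`, `0 < c'`): otherwise `NoK t G` fails for:
`s 0, .., s (t-1)` and `s t, .., s (2t-1)`; `s 0, .., s (t-1)` and `x t (t+1+j) c`, `j < t`; `x 0 (1+j) c` and
`s (t+1+j)`; `x j t c` (`j < t`) and `x t (t+1+j) c'`; `x 0 (1+j) c` and `x (t+1) (t+2+j) c'` (different vertices by
`Sbd.inj`, `Sbd.dis`).
-/

set_option autoImplicit false

namespace Pool.H22.DI

open Set Function

variable {G : SimpleGraph ℕ} {r t : ℕ} {s : ℕ → ℕ} {x : ℕ → ℕ → ℕ → ℕ}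

private theorem tup {i j k l : ℕ} (h1 : i < j) (h2 : j < k) (h3 : k < l) :
    StrictMono (![i, j, k, l] : Fin 4 → ℕ) := by
  rw [Fin.strictMono_iff_lt_succ]
  intro a
  fin_cases a
  · exact h1
  · exact h2
  · exact h3

private theorem nok_false (hK : NoK t G) (a b : ℕ → ℕ) (ha : InjOn a (Iio t))
    (hb : InjOn b (Iio t)) (hab : ∀ i < t, ∀ j < t, G.Adj (a i) (b j)) : False := by
  classical
  have hc : ∀ f : ℕ → ℕ, InjOn f (Iio t) → ((Finset.range t).image f).card = t := by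
    intro f hf
    rw [Finset.card_image_of_injOn, Finset.card_range]
    intro u hu v hv huv
    exact hf (Finset.mem_range.1 hu) (Finset.mem_range.1 hv) huv
  obtain ⟨p, hp, q, hq, hn⟩ := hK _ _ (hc a ha) (hc b hb)
  obtain ⟨i, hi, rfl⟩ := Finset.mem_image.1 hp
  obtain ⟨j, hj, rfl⟩ := Finset.mem_image.1 hq
  exact hn (hab i (Finset.mem_range.1 hi) j (Finset.mem_range.1 hj))

theorem sbd_comp (h : Sbd G r s x) {φ : ℕ → ℕ} (hφ : StrictMono φ) :
    Sbd G r (fun i => s (φ i)) (fun i j => x (φ i) (φ j)) where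
  inj := h.inj.comp hφ.injective
  path := fun i j hij => h.path _ _ (hφ hij)
  fst := fun i j hij => h.fst _ _ (hφ hij)
  lst := fun i j hij => h.lst _ _ (hφ hij)
  dis := by
    intro i j i' j' c c' hij hij' h1 h2 h3 h4 he
    obtain ⟨e1, e2, e3⟩ := h.dis _ _ _ _ c c' (hφ hij) (hφ hij') h1 h2 h3 h4 he
    exact ⟨hφ.injective e1, hφ.injective e2, e3⟩
  out := fun i j c k hij h1 h2 => h.out _ _ c _ (hφ hij) h1 h2

theorem exists_cln (hK : NoK t G) (h : Sbd G r s x) : ∃ φ : ℕ → ℕ, StrictMono φ ∧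
    Cln G r (fun i => s (φ i)) (fun i j => x (φ i) (φ j)) := by
  obtain ⟨φ, hφ, hom⟩ := Pool.H17.TA.ramseyN
    (C := Prop × (Fin r → Prop) × (Fin r → Prop) × (Fin r → Fin r → Prop) ×
      (Fin r → Fin r → Prop)) 4
    (fun u => (G.Adj (s (u 0)) (s (u 1)), fun c => G.Adj (s (u 0)) (x (u 1) (u 2) c),
      fun c => G.Adj (x (u 0) (u 1) c) (s (u 2)),
      fun c c' => G.Adj (x (u 0) (u 1) c) (x (u 1) (u 2) c'),
      fun c c' => G.Adj (x (u 0) (u 1) c) (x (u 2) (u 3) c')))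
  have h' := sbd_comp h hφ
  have k1 : ∀ i j i' j', i < j → i' < j' → G.Adj (s (φ i)) (s (φ j)) →
      G.Adj (s (φ i')) (s (φ j')) := by
    intro i j i' j' h1 h2 h3
    have e := congrArg Prod.fst (hom _ _ (tup h1 (Nat.lt_succ_self j) (Nat.lt_succ_self (j + 1)))
      (tup h2 (Nat.lt_succ_self j') (Nat.lt_succ_self (j' + 1))))
    exact (Iff.of_eq e).1 h3
  have k2 : ∀ i j k i' j' k' c, i < j → j < k → i' < j' → j' < k' → c < r →
      G.Adj (s (φ i)) (x (φ j) (φ k) c) → G.Adj (s (φ i')) (x (φ j') (φ k') c) := by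
    intro i j k i' j' k' c h1 h2 h3 h4 hc h5
    have e := congrFun (congrArg (fun z => z.2.1) (hom _ _ (tup h1 h2 (Nat.lt_succ_self k))
      (tup h3 h4 (Nat.lt_succ_self k')))) ⟨c, hc⟩
    exact (Iff.of_eq e).1 h5
  have k3 : ∀ i j k i' j' k' c, i < j → j < k → i' < j' → j' < k' → c < r →
      G.Adj (x (φ i) (φ j) c) (s (φ k)) → G.Adj (x (φ i') (φ j') c) (s (φ k')) := by
    intro i j k i' j' k' c h1 h2 h3 h4 hc h5
    have e := congrFun (congrArg (fun z => z.2.2.1) (hom _ _ (tup h1 h2 (Nat.lt_succ_self k))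
      (tup h3 h4 (Nat.lt_succ_self k')))) ⟨c, hc⟩
    exact (Iff.of_eq e).1 h5
  have k4 : ∀ i j k i' j' k' c c', i < j → j < k → i' < j' → j' < k' → c < r → c' < r →
      G.Adj (x (φ i) (φ j) c) (x (φ j) (φ k) c') → G.Adj (x (φ i') (φ j') c) (x (φ j') (φ k') c') := by
    intro i j k i' j' k' c c' h1 h2 h3 h4 hc hc' h5
    have e := congrFun (congrFun (congrArg (fun z => z.2.2.2.1) (hom _ _
      (tup h1 h2 (Nat.lt_succ_self k)) (tup h3 h4 (Nat.lt_succ_self k')))) ⟨c, hc⟩) ⟨c', hc'⟩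
    exact (Iff.of_eq e).1 h5
  have k5 : ∀ i j k l i' j' k' l' c c', i < j → j < k → k < l → i' < j' → j' < k' → k' < l' →
      c < r → c' < r → G.Adj (x (φ i) (φ j) c) (x (φ k) (φ l) c') →
      G.Adj (x (φ i') (φ j') c) (x (φ k') (φ l') c') := by
    intro i j k l i' j' k' l' c c' h1 h2 h3 h4 h5 h6 hc hc' h7
    have e := congrFun (congrFun (congrArg (fun z => z.2.2.2.2) (hom _ _
      (tup h1 h2 h3) (tup h4 h5 h6))) ⟨c, hc⟩) ⟨c', hc'⟩
    exact (Iff.of_eq e).1 h7
  refine ⟨φ, hφ, ?_, ?_, ?_, ?_, ?_⟩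
  · intro i j hij ha
    refine nok_false hK (fun u => s (φ u)) (fun v => s (φ (t + v))) ?_ ?_ ?_
    · exact fun u _ v _ huv => h'.inj huv
    · intro u _ v _ huv
      have := h'.inj huv
      omega
    · exact fun u hu v _ => k1 _ _ _ _ hij (by omega) ha
  · intro i j k c hij hjk h0 hr ha
    refine nok_false hK (fun u => s (φ u)) (fun v => x (φ t) (φ (t + 1 + v)) c) ?_ ?_ ?_
    · exact fun u _ v _ huv => h'.inj huv
    · intro u _ v _ huv
      have := (h'.dis t (t + 1 + u) t (t + 1 + v) c c (by omega) (by omega) h0 hr h0 hr huv).2.1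
      omega
    · exact fun u hu v _ => k2 _ _ _ _ _ _ _ hij hjk (by omega) (by omega) hr ha
  · intro i j k c hij hjk h0 hr ha
    refine nok_false hK (fun u => x (φ 0) (φ (1 + u)) c) (fun v => s (φ (t + 1 + v))) ?_ ?_ ?_
    · intro u _ v _ huv
      have := (h'.dis 0 (1 + u) 0 (1 + v) c c (by omega) (by omega) h0 hr h0 hr huv).2.1
      omega
    · intro u _ v _ huv
      have := h'.inj huv
      omega
    · exact fun u hu v _ => k3 _ _ _ _ _ _ _ hij hjk (by omega) (by omega) hr ha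
  · intro i j k c c' hij hjk h0 hr h0' hr' ha
    refine nok_false hK (fun u => x (φ u) (φ t) c) (fun v => x (φ t) (φ (t + 1 + v)) c') ?_ ?_ ?_
    · intro u hu v hv huv
      exact (h'.dis u t v t c c hu hv h0 hr h0 hr huv).1
    · intro u _ v _ huv
      have := (h'.dis t (t + 1 + u) t (t + 1 + v) c' c' (by omega) (by omega) h0' hr' h0' hr' huv).2.1
      omega
    · exact fun u hu v _ => k4 _ _ _ _ _ _ _ _ hij hjk hu (by omega) hr hr' ha
  · intro i j k l c c' hij hjk hkl h0 hr h0' hr' ha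
    refine nok_false hK (fun u => x (φ 0) (φ (1 + u)) c)
      (fun v => x (φ (t + 1)) (φ (t + 2 + v)) c') ?_ ?_ ?_
    · intro u _ v _ huv
      have := (h'.dis 0 (1 + u) 0 (1 + v) c c (by omega) (by omega) h0 hr h0 hr huv).2.1
      omega
    · intro u _ v _ huv
      have := (h'.dis (t + 1) (t + 2 + u) (t + 1) (t + 2 + v) c' c' (by omega) (by omega)
        h0' hr' h0' hr' huv).2.1
      omega
    · exact fun u hu v _ => k5 _ _ _ _ _ _ _ _ _ _ hij hjk hkl (by omega) (by omega) (by omega)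
        hr hr' ha

end Pool.H22.DI
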