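import Pool.Agent.H22.DI.Geo

/-!
# Long induced paths in clean subdivisions (module SBC)

`chain_ipth`: for `i 0 < i 1 < ..` the path `fun j => x (i (j / r)) (i (j / r + 1)) (j % r)` with `q * r` steps
passes through the vertices `s (i 0), .., s (i q)`; it is injective (`inj`, `dis`, `out`), and by `Cln` all
edges between its vertices are edges of one of the paths `x (i a) (i (a + 1))`, so (`path`) between
consecutive ones. `legs_cln`: given `F` finite with `s i₀ ∉ F`: for fixed `i` only finitely many of the (disjoint)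
paths `x i j` meet `F` in a vertex different from `s i`; choose `i 0 = i₀`, and `i (a + 1) > i a` such
that `x (i a) (i (a + 1)) c ∉ F` for `0 < c ≤ r`; `q = n` (`n ≤ n * r`), `ipth_trunc`.
-/

set_option autoImplicit false

namespace Pool.H22.DI

open Set Function

variable {G : SimpleGraph ℕ} {r n : ℕ} {s : ℕ → ℕ} {x : ℕ → ℕ → ℕ → ℕ}

theorem chain_ipth (hr : 0 < r) (h : Sbd G r s x) (hc : Cln G r s x) {i : ℕ → ℕ}
    (hi : StrictMono i) (q : ℕ) :
    IPth G (q * r) (fun j => x (i (j / r)) (i (j / r + 1)) (j % r)) := by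
  have hlt : ∀ a, i a < i (a + 1) := fun a => hi (Nat.lt_succ_self a)
  have key : ∀ j j', j < j' → (G.Adj (x (i (j / r)) (i (j / r + 1)) (j % r))
      (x (i (j' / r)) (i (j' / r + 1)) (j' % r)) ↔ j' = j + 1) := by
    intro j j' hjj
    have e1 : r * (j / r) + j % r = j := Nat.div_add_mod j r
    have e2 : r * (j' / r) + j' % r = j' := Nat.div_add_mod j' r
    have c1 : j % r < r := Nat.mod_lt j hr
    have c2 : j' % r < r := Nat.mod_lt j' hr
    have ha : j / r ≤ j' / r := Nat.div_le_div_right hjj.le
    generalize j / r = a at *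
    generalize j' / r = a' at *
    generalize j % r = c at *
    generalize j' % r = c' at *
    rcases Nat.eq_or_lt_of_le ha with h1 | h1
    · subst h1
      rw [(h.path (i a) (i (a + 1)) (hlt a)).adj c c1.le c' c2.le]
      omega
    · have h2 : r * a + r ≤ r * a' := by
        calc r * a + r = r * (a + 1) := by ring
          _ ≤ r * a' := Nat.mul_le_mul_left r h1
      rcases Nat.eq_zero_or_pos c' with h3 | h3
      · subst h3
        rcases Nat.eq_or_lt_of_le h1 with h4 | h4
        · subst h4
          have h5 : r * (a + 1) = r * a + r := by ring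
          rw [Nat.succ_eq_add_one, h.fst _ _ (hlt (a + 1)), ← h.lst _ _ (hlt a),
            (h.path (i a) (i (a + 1)) (hlt a)).adj c c1.le r le_rfl]
          rw [Nat.succ_eq_add_one] at e2
          omega
        · have h5 : r * a + 2 * r ≤ r * a' := by
            calc r * a + 2 * r = r * (a + 2) := by ring
              _ ≤ r * a' := Nat.mul_le_mul_left r h4
          rw [h.fst _ _ (hlt a')]
          rcases Nat.eq_zero_or_pos c with h6 | h6
          · subst h6
            rw [h.fst _ _ (hlt a)]
            refine ⟨fun h7 => absurd h7 (hc.ss _ _ (hi h1)), fun h7 => ?_⟩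
            exfalso
            omega
          · refine ⟨fun h7 => absurd h7 (hc.xs _ _ _ _ (hlt a) (hi h4) h6 c1), fun h7 => ?_⟩
            exfalso
            omega
      · rcases Nat.eq_zero_or_pos c with h6 | h6
        · subst h6
          rw [h.fst _ _ (hlt a)]
          refine ⟨fun h7 => absurd h7 (hc.sx _ _ _ _ (hi h1) (hlt a') h3 c2), fun h7 => ?_⟩
          exfalso
          omega
        · refine ⟨fun h7 => ?_, fun h7 => ?_⟩
          · exfalso
            rcases Nat.eq_or_lt_of_le h1 with h4 | h4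
            · subst h4
              exact hc.xx _ _ _ _ _ (hlt a) (hlt _) h6 c1 h3 c2 h7
            · exact hc.xy _ _ _ _ _ _ (hlt a) (hi h4) (hlt a') h6 c1 h3 c2 h7
          · exfalso
            omega
  refine ⟨?_, ?_⟩
  · intro j _ j' _ he
    have e1 : r * (j / r) + j % r = j := Nat.div_add_mod j r
    have e2 : r * (j' / r) + j' % r = j' := Nat.div_add_mod j' r
    have c1 : j % r < r := Nat.mod_lt j hr
    have c2 : j' % r < r := Nat.mod_lt j' hr
    change x (i (j / r)) (i (j / r + 1)) (j % r) = x (i (j' / r)) (i (j' / r + 1)) (j' % r) at he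
    rw [← e1, ← e2]
    generalize j / r = a at *
    generalize j' / r = a' at *
    generalize j % r = c at *
    generalize j' % r = c' at *
    rcases Nat.eq_zero_or_pos c with h3 | h3
    · subst h3
      rw [h.fst _ _ (hlt a)] at he
      rcases Nat.eq_zero_or_pos c' with h4 | h4
      · subst h4
        rw [h.fst _ _ (hlt a')] at he
        rw [hi.injective (h.inj he)]
      · exact absurd he.symm (h.out _ _ _ _ (hlt a') h4 c2)
    · rcases Nat.eq_zero_or_pos c' with h4 | h4
      · subst h4
        rw [h.fst _ _ (hlt a')] at he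
        exact absurd he (h.out _ _ _ _ (hlt a) h3 c1)
      · obtain ⟨h5, -, h6⟩ := h.dis _ _ _ _ _ _ (hlt a) (hlt a') h3 c1 h4 c2 he
        rw [hi.injective h5, h6]
  · intro j _ j' _
    change G.Adj (x (i (j / r)) (i (j / r + 1)) (j % r))
      (x (i (j' / r)) (i (j' / r + 1)) (j' % r)) ↔ _
    rcases lt_trichotomy j j' with h1 | h1 | h1
    · rw [key j j' h1]
      omega
    · subst h1
      refine ⟨fun h2 => absurd h2 (G.loopless.irrefl _), fun h2 => ?_⟩
      exfalso
      omega
    · rw [SimpleGraph.adj_comm, key j' j h1]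
      omega

theorem legs_cln (hr : 0 < r) (h : Sbd G r s x) (hc : Cln G r s x) (n i₀ : ℕ) :
    Legs G n (s i₀) := by
  intro F hF hsF
  have hex : ∀ m : ℕ, ∃ j, m < j ∧ ∀ c, 0 < c → c ≤ r → x m j c ∉ F := by
    intro m
    have h1 : {j | m < j ∧ ∃ c, 0 < c ∧ c ≤ r ∧ x m j c ∈ F}.Finite := by
      have h2 : ∀ f ∈ F, ({j | m < j ∧ ∃ c, 0 < c ∧ c < r ∧ x m j c = f} ∪
          {j | s j = f} : Set ℕ).Finite := by
        intro f _
        refine Set.Finite.union (Set.Subsingleton.finite ?_) (Set.Subsingleton.finite ?_)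
        · rintro j ⟨h3, c, h4, h5, h6⟩ j' ⟨h3', c', h4', h5', h6'⟩
          exact (h.dis _ _ _ _ _ _ h3 h3' h4 h5 h4' h5' (h6.trans h6'.symm)).2.1
        · intro j h3 j' h3'
          exact h.inj (Eq.trans h3 (Eq.symm h3'))
      refine (hF.biUnion h2).subset ?_
      rintro j ⟨h3, c, h4, h5, h6⟩
      rw [Set.mem_iUnion₂]
      refine ⟨x m j c, h6, ?_⟩
      rcases Nat.eq_or_lt_of_le h5 with h7 | h7
      · right
        change s j = x m j c
        rw [h7, h.lst _ _ h3]
      · left
        exact ⟨h3, c, h4, h7, rfl⟩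
    obtain ⟨B, hB⟩ := h1.bddAbove
    refine ⟨max m B + 1, by omega, ?_⟩
    intro c hc1 hc2 hc3
    have h2 := hB (show max m B + 1 ∈ {j | m < j ∧ ∃ c, 0 < c ∧ c ≤ r ∧ x m j c ∈ F} from
      ⟨by omega, c, hc1, hc2, hc3⟩)
    omega
  choose g hg1 hg2 using hex
  let i : ℕ → ℕ := fun a => Nat.rec i₀ (fun _ m => g m) a
  have hi0 : i 0 = i₀ := rfl
  have his : ∀ a, i (a + 1) = g (i a) := fun a => rfl
  have hi : StrictMono i := strictMono_nat_of_lt_succ (fun a => by rw [his]; exact hg1 _)
  have hp := ipth_trunc (chain_ipth hr h hc hi n) (Nat.le_mul_of_pos_right n hr)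
  refine ⟨_, hp, ?_, ?_⟩
  · change x (i (0 / r)) (i (0 / r + 1)) (0 % r) = s i₀
    rw [Nat.zero_div, Nat.zero_mod, h.fst _ _ (hi (Nat.lt_succ_self 0)), hi0]
  · intro j _ hj
    change x (i (j / r)) (i (j / r + 1)) (j % r) ∉ F
    have e1 : r * (j / r) + j % r = j := Nat.div_add_mod j r
    have c1 : j % r < r := Nat.mod_lt j hr
    generalize j / r = a at *
    generalize j % r = c at *
    rcases Nat.eq_zero_or_pos c with h3 | h3
    · subst h3
      rcases a with _ | b
      · exfalso
        omega
      · rw [h.fst _ _ (hi (Nat.lt_succ_self (b + 1))), ← h.lst _ _ (hi (Nat.lt_succ_self b)),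
          his b]
        exact hg2 _ r hr le_rfl
    · rw [his a]
      exact hg2 _ c h3 c1.le

end Pool.H22.DI
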