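import Pool.Agent.H22.DI.SbA
import Pool.Agent.H22.DI.SbB
import Pool.Agent.H22.DI.SbC

/-!
# Vertices with long induced legs (module LEG)

Enumerate (a part of) `S` injectively (`Set.Infinite.natEmbedding`), infinite Ramsey theorem for pairs
(`Pool.H17.HS.ramsey` or `ramseyN`), the colour of `(i, j)` is the least `r ≤ n` with `Sc G r (e i) (e j)`, or
`n + 1` if there is none. Colour `n + 1`: `legs_far` for the homogeneous subset. Colour `0`: impossible (a
walk without steps; `e i ≠ e j`). Colour `r ≥ 1`: `Sc G r`, `¬ Sc G (r - 1)` for all pairs `i < j`, and by symmetry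
(`sc_symm`: reverse the walks) for all pairs: `exists_sbd`, `exists_cln`, `sbd_comp`, `legs_cln`.
-/

set_option autoImplicit false

namespace Pool.H22.DI

open Set Function

variable {G : SimpleGraph ℕ} {S : Set ℕ} {t : ℕ}

theorem sc_symm {r u v : ℕ} (h : Sc G r u v) : Sc G r v u := by
  intro Y hY hv hu
  obtain ⟨n, hn, p, h0, h1, hp, hpY⟩ := h Y hY hu hv
  refine ⟨n, hn, fun j => p (n - j), ?_, ?_, ?_, ?_⟩
  · simpa using h1
  · simpa using h0
  · intro j hj
    have h2 := hp (n - (j + 1)) (by omega)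
    have h3 : n - (j + 1) + 1 = n - j := by omega
    rw [h3] at h2
    exact h2.symm
  · intro j hj h0j
    by_cases h2 : 0 < n - j
    · exact hpY (n - j) (by omega) h2
    · have h3 : n - j = 0 := by omega
      show p (n - j) ∉ Y
      rw [h3, h0]
      exact hu

private theorem leg_pairs {C : Type} [Finite C] (f : ℕ → ℕ → C) :
    ∃ (φ : ℕ → ℕ) (k : C), StrictMono φ ∧ ∀ i j, i < j → f (φ i) (φ j) = k := by
  obtain ⟨φ, hφ, h⟩ := Pool.H17.TA.ramseyN 2 (fun t : Fin 2 → ℕ => f (t 0) (t 1))
  refine ⟨φ, f (φ 0) (φ 1), hφ, fun i j hij => ?_⟩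
  have h1 : StrictMono ![i, j] := by
    intro a b hab
    fin_cases a <;> fin_cases b
    · exact absurd hab (lt_irrefl _)
    · simpa using hij
    · exact absurd hab (by decide)
    · exact absurd hab (lt_irrefl _)
  have h2 : StrictMono ![0, 1] := by
    intro a b hab
    fin_cases a <;> fin_cases b
    · exact absurd hab (lt_irrefl _)
    · simp
    · exact absurd hab (by decide)
    · exact absurd hab (lt_irrefl _)
  have h3 := h ![i, j] ![0, 1] h1 h2
  simpa using h3

private theorem leg_sub {S' : Set ℕ} (hS : InsG G S) (h : S' ⊆ S) : InsG G S' :=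
  fun u hu v hv => hS u (h hu) v (h hv)

theorem exists_legs (hK : NoK t G) (hS : InsG G S) (hi : S.Infinite) (n : ℕ) :
    ∃ S' : Set ℕ, S'.Infinite ∧ ∀ s ∈ S', Legs G n s := by
  classical
  have e := hi.natEmbedding
  -- the colouring
  let col : ℕ → ℕ → ℕ := fun u v => if h : ∃ r, r ≤ n ∧ Sc G r u v then Nat.find h else n + 1
  have hcol : ∀ u v, col u v < n + 2 := by
    intro u v
    show (if h : ∃ r, r ≤ n ∧ Sc G r u v then Nat.find h else n + 1) < n + 2
    split_ifs with h
    · have := (Nat.find_spec h).1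
      omega
    · omega
  obtain ⟨φ, k, hφ, hk⟩ := leg_pairs (C := Fin (n + 2)) fun i j =>
    ⟨col (e i).1 (e j).1, hcol _ _⟩
  let s0 : ℕ → ℕ := fun i => (e (φ i)).1
  have hs0 : Injective s0 := fun i j hij => hφ.injective (e.injective (Subtype.ext hij))
  have hs0S : ∀ i, s0 i ∈ S := fun i => (e (φ i)).2
  have hk' : ∀ i j, i < j → col (s0 i) (s0 j) = k.1 := fun i j hij => congrArg Fin.val (hk i j hij)
  have hcinf : (range s0).Infinite := infinite_range_of_injective hs0
  have hsub : range s0 ⊆ S := by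
    rintro _ ⟨i, rfl⟩
    exact hs0S i
  by_cases hkn : k.1 = n + 1
  · -- far apart
    have hno : ∀ i j, i < j → ¬ ∃ r, r ≤ n ∧ Sc G r (s0 i) (s0 j) := by
      intro i j hij h
      have h1 := hk' i j hij
      have h2 : col (s0 i) (s0 j) = Nat.find h := dif_pos h
      have h3 := (Nat.find_spec h).1
      omega
    refine ⟨range s0, hcinf, fun s hs => ?_⟩
    refine legs_far (leg_sub hS hsub) hcinf ?_ hs
    rintro _ ⟨i, rfl⟩ _ ⟨j, rfl⟩ hne hsc
    have hij : i ≠ j := fun h => hne (by rw [h])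
    rcases lt_or_gt_of_ne hij with h | h
    · exact hno i j h ⟨n, le_rfl, hsc⟩
    · exact hno j i h ⟨n, le_rfl, sc_symm hsc⟩
  · have hex : ∀ i j, i < j → Sc G k.1 (s0 i) (s0 j) ∧ ∀ m < k.1, ¬ Sc G m (s0 i) (s0 j) := by
      intro i j hij
      have h1 := hk' i j hij
      by_cases h : ∃ r, r ≤ n ∧ Sc G r (s0 i) (s0 j)
      · have h2 : col (s0 i) (s0 j) = Nat.find h := dif_pos h
        have h3 : Nat.find h = k.1 := by omega
        refine ⟨?_, fun m hm hsc => ?_⟩
        · rw [← h3]
          exact (Nat.find_spec h).2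
        · have h4 := (Nat.find_spec h).1
          exact Nat.find_min h (by omega : m < Nat.find h) ⟨by omega, hsc⟩
      · have h2 : col (s0 i) (s0 j) = n + 1 := dif_neg h
        omega
    rcases Nat.eq_zero_or_pos k.1 with hk0 | hk0
    · exfalso
      have h1 := (hex 0 1 zero_lt_one).1
      rw [hk0] at h1
      obtain ⟨m, hm, p, h2, h3, -, -⟩ := h1 ∅ finite_empty (notMem_empty _) (notMem_empty _)
      have h4 : m = 0 := by omega
      rw [h4, h2] at h3
      exact zero_ne_one (hs0 h3)
    · obtain ⟨s, x, hx, hsx⟩ := exists_sbd (r := k.1) hcinf hk0 (by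
        rintro _ ⟨i, rfl⟩ _ ⟨j, rfl⟩ hne
        have hij : i ≠ j := fun h => hne (by rw [h])
        rcases lt_or_gt_of_ne hij with h | h
        · exact ⟨(hex i j h).1, (hex i j h).2 _ (by omega)⟩
        · exact ⟨sc_symm (hex j i h).1, fun h5 => (hex j i h).2 _ (by omega : k.1 - 1 < k.1) (sc_symm h5)⟩)
      obtain ⟨ψ, hψ, hcl⟩ := exists_cln hK hx
      have hx' := sbd_comp hx hψ
      refine ⟨range fun i => s (ψ i), infinite_range_of_injective hx'.inj, ?_⟩
      rintro _ ⟨i, rfl⟩
      exact legs_cln hk0 hx' hcl n i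

end Pool.H22.DI
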