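import Pool.Agent.H22.DI.Df

/-!
# Shortest paths are induced (module GEO)

`ipth_of_min`: a walk with the least number of steps: if `p i = p j` or `G.Adj (p i) (p j)` with `i + 2 ≤ j` (or
`i < j` in the first case) one can leave out a part and gets a shorter walk avoiding `Y`.
`exists_geo`: `Relation.ReflTransGen` gives a walk with some number of steps (induction), take the least
number (`Nat.find`). `ipth_trunc`: clear. `legs_far`: choose `s' ∈ S`, `s' ≠ s`, outside `F`, and a finite set
`Y₀` (`¬ Sc`) such that no walk from `s` to `s'` with at most `n` steps avoids `Y₀`; `exists_geo` for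
`F ∪ Y₀` gives an induced path with more than `n` steps.
-/

set_option autoImplicit false

namespace Pool.H22.DI

open Set Function

variable {G : SimpleGraph ℕ} {S Y : Set ℕ} {n m r u v s : ℕ} {p : ℕ → ℕ}

theorem Wk.anti {Y' : Set ℕ} (h : Wk G Y n u v) (hY : Y' ⊆ Y) : Wk G Y' n u v := by
  obtain ⟨p, h1, h2, h3, h4⟩ := h
  exact ⟨p, h1, h2, h3, fun j hj h0 h5 => h4 j hj h0 (hY h5)⟩

private theorem geo_short (h0 : p 0 = u) (hn : p n = v)
    (hp : ∀ j < n, G.Adj (p j) (p (j + 1))) (hY : ∀ j ≤ n, 0 < j → p j ∉ Y) (i d : ℕ)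
    (hd : i + d ≤ n) (h1 : i + d < n → G.Adj (p i) (p (i + 1 + d)))
    (h2 : i + d = n → p i = v) : Wk G Y (n - d) u v := by
  refine ⟨fun k => if k ≤ i then p k else p (k + d), ?_, ?_, ?_, ?_⟩
  · change (if 0 ≤ i then p 0 else p (0 + d)) = u
    rw [if_pos (Nat.zero_le i), h0]
  · change (if n - d ≤ i then p (n - d) else p (n - d + d)) = v
    split_ifs with h3
    · have h4 : n - d = i := by omega
      rw [h4]
      exact h2 (by omega)
    · rw [Nat.sub_add_cancel (by omega), hn]
  · intro j hj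
    change G.Adj (if j ≤ i then p j else p (j + d)) (if j + 1 ≤ i then p (j + 1) else p (j + 1 + d))
    rcases lt_trichotomy j i with h3 | h3 | h3
    · rw [if_pos h3.le, if_pos (Nat.succ_le_of_lt h3)]
      exact hp j (by omega)
    · rw [if_pos h3.le, if_neg (by omega), h3]
      exact h1 (by omega)
    · rw [if_neg (by omega), if_neg (by omega)]
      have h4 := hp (j + d) (by omega)
      rwa [show j + d + 1 = j + 1 + d by omega] at h4
  · intro j hj hj0
    change (if j ≤ i then p j else p (j + d)) ∉ Y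
    split_ifs with h3
    · exact hY j (by omega) hj0
    · exact hY (j + d) (by omega) (by omega)

theorem ipth_of_min (hu : u ∉ Y) (h0 : p 0 = u) (hn : p n = v)
    (hp : ∀ j < n, G.Adj (p j) (p (j + 1))) (hY : ∀ j ≤ n, 0 < j → p j ∉ Y)
    (hmin : ∀ n' < n, ¬ Wk G Y n' u v) : IPth G n p := by
  have key1 : ∀ i j, i < j → j ≤ n → p i ≠ p j := by
    intro i j hij hj he
    refine hmin (n - (j - i)) (by omega) (geo_short h0 hn hp hY i (j - i) (by omega) ?_ ?_)
    · intro h1
      rw [he, show i + 1 + (j - i) = j + 1 by omega]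
      exact hp j (by omega)
    · intro h1
      rw [he, ← hn]
      congr 1
      omega
  have key2 : ∀ i j, i + 1 < j → j ≤ n → ¬ G.Adj (p i) (p j) := by
    intro i j hij hj he
    refine hmin (n - (j - i - 1)) (by omega)
      (geo_short h0 hn hp hY i (j - i - 1) (by omega) ?_ ?_)
    · intro h1
      rw [show i + 1 + (j - i - 1) = j by omega]
      exact he
    · intro h1
      omega
  refine ⟨?_, ?_⟩
  · intro i hi j hj he
    rw [Set.mem_Iic] at hi hj
    rcases lt_trichotomy i j with h | h | h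
    · exact absurd he (key1 i j h hj)
    · exact h
    · exact absurd he.symm (key1 j i h hi)
  · intro i hi j hj
    constructor
    · intro h
      by_contra hc
      push Not at hc
      obtain ⟨hc1, hc2⟩ := hc
      rcases lt_trichotomy i j with h3 | h3 | h3
      · exact key2 i j (by omega) hj h
      · rw [h3] at h
        exact G.loopless.irrefl _ h
      · exact key2 j i (by omega) hi h.symm
    · rintro (h | h)
      · rw [h]
        exact hp i (by omega)
      · rw [h]
        exact (hp j (by omega)).symm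

private theorem geo_walk {Y : Set ℕ} {u v : ℕ}
    (h : Relation.ReflTransGen (fun b c => c ∉ Y ∧ G.Adj b c) u v) : ∃ n, Wk G Y n u v := by
  induction h with
  | refl => exact ⟨0, fun _ => u, rfl, rfl, fun j hj => absurd hj (Nat.not_lt_zero j),
      fun j hj h0 => by omega⟩
  | @tail b c _ h2 ih =>
    obtain ⟨n, p, h3, h4, h5, h6⟩ := ih
    refine ⟨n + 1, fun k => if k ≤ n then p k else c, ?_, ?_, ?_, ?_⟩
    · change (if 0 ≤ n then p 0 else c) = u
      rw [if_pos (Nat.zero_le n), h3]
    · change (if n + 1 ≤ n then p (n + 1) else c) = c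
      rw [if_neg (by omega)]
    · intro j hj
      change G.Adj (if j ≤ n then p j else c) (if j + 1 ≤ n then p (j + 1) else c)
      rcases Nat.lt_or_ge j n with h7 | h7
      · rw [if_pos h7.le, if_pos (Nat.succ_le_of_lt h7)]
        exact h5 j h7
      · have h8 : j = n := by omega
        rw [if_pos (by omega), if_neg (by omega), h8, h4]
        exact h2.2
    · intro j hj h0
      change (if j ≤ n then p j else c) ∉ Y
      split_ifs with h7
      · exact h6 j h7 h0
      · exact h2.1

theorem exists_geo (hS : InsG G S) (hu : u ∈ S) (hv : v ∈ S) (huv : u ≠ v) (hY : Y.Finite)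
    (huY : u ∉ Y) (hvY : v ∉ Y) : ∃ n p, IPth G n p ∧ p 0 = u ∧ p n = v ∧ (∀ j ≤ n, p j ∉ Y) ∧
      ∀ n' < n, ¬ Wk G Y n' u v := by
  classical
  have hex := geo_walk (hS u hu v hv huv Y hY huY hvY)
  have hmin : ∀ n' < Nat.find hex, ¬ Wk G Y n' u v := fun n' hn' => Nat.find_min hex hn'
  obtain ⟨p, h1, h2, h3, h4⟩ := Nat.find_spec hex
  refine ⟨Nat.find hex, p, ipth_of_min huY h1 h2 h3 h4 hmin, h1, h2, ?_, hmin⟩
  intro j hj
  rcases Nat.eq_zero_or_pos j with h5 | h5
  · rw [h5, h1]
    exact huY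
  · exact h4 j hj h5

theorem ipth_trunc (h : IPth G m p) (hn : n ≤ m) : IPth G n p :=
  ⟨h.inj.mono (Set.Iic_subset_Iic.2 hn), fun i hi j hj => h.adj i (hi.trans hn) j (hj.trans hn)⟩

theorem legs_far (hS : InsG G S) (hi : S.Infinite)
    (h : ∀ u ∈ S, ∀ v ∈ S, u ≠ v → ¬ Sc G n u v) (hs : s ∈ S) : Legs G n s := by
  intro F hF hsF
  obtain ⟨s', hs', hs'F⟩ := hi.exists_notMem_finite (hF.union (Set.finite_singleton s))
  have h1 : s' ∉ F := fun h2 => hs'F (Or.inl h2)
  have h2 : s ≠ s' := fun h3 => hs'F (Or.inr h3.symm)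
  have h3 := h s hs s' hs' h2
  unfold Sc at h3
  push Not at h3
  obtain ⟨Y, hYf, hsY, hs'Y, h4⟩ := h3
  obtain ⟨m, p, h5, h6, h7, h8, -⟩ := exists_geo hS hs hs' h2 (hF.union hYf)
    (fun h9 => h9.elim hsF hsY) (fun h9 => h9.elim h1 hs'Y)
  have h9 : n ≤ m := by
    by_contra h10
    push Not at h10
    refine h4 m h10.le ⟨p, h6, h7, ?_, ?_⟩
    · intro j hj
      exact (h5.adj j hj.le (j + 1) hj).2 (Or.inl rfl)
    · intro j hj _ h11
      exact h8 j hj (Or.inr h11)
  refine ⟨p, ipth_trunc h5 h9, h6, ?_⟩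
  intro j hj _ h10
  exact h8 j (hj.trans h9) (Or.inl h10)

/-- pairs with the exact scale `r` are joined by induced paths with exactly `r` steps outside of every
finite set -/
theorem exists_exact (hr : Sc G r u v) (hr' : ¬ Sc G (r - 1) u v) (h0 : 0 < r) (hY : Y.Finite)
    (huY : u ∉ Y) (hvY : v ∉ Y) : ∃ p, IPth G r p ∧ p 0 = u ∧ p r = v ∧ ∀ j ≤ r, p j ∉ Y := by
  unfold Sc at hr'
  push Not at hr'
  obtain ⟨Y0, hY0, hu0, hv0, h1⟩ := hr'
  have huU : u ∉ Y ∪ Y0 := fun h => h.elim huY hu0
  obtain ⟨n, hn, h2⟩ := hr (Y ∪ Y0) (hY.union hY0) huU (fun h => h.elim hvY hv0)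
  have h3 : ∀ n' < r, ¬ Wk G (Y ∪ Y0) n' u v := fun n' hn' h4 =>
    h1 n' (by omega) (h4.anti Set.subset_union_right)
  have h4 : n = r := by
    by_contra h5
    exact h3 n (by omega) h2
  subst h4
  obtain ⟨p, h5, h6, h7, h8⟩ := h2
  refine ⟨p, ipth_of_min huU h5 h6 h7 h8 h3, h5, h6, ?_⟩
  intro j hj hjY
  rcases Nat.eq_zero_or_pos j with h9 | h9
  · rw [h9, h5] at hjY
    exact huY hjY
  · exact h8 j hj h9 (Or.inl hjY)

end Pool.H22.DI
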