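import Pool.Agent.H22.DI.Df

/-!
# Disjoint finite sets without edges between them (module UNL)

`Pool.H17.TA.ramseyN` for pairs, colours: the pattern
`fun a b => (G.Adj (A i a) (A j b))`, `i < j` (a finite type, `Fin N → Fin N → Prop` or `Bool`). If the pattern of
the homogeneous subsequence contains an edge at `(a, b)` then the sets `{A (φ i) a | i < t}` and
`{A (φ (t + j)) b | j < t}` contradict `NoK t G`.
-/

set_option autoImplicit false

namespace Pool.H22.DI

open Set Function

variable {G : SimpleGraph ℕ} {t N : ℕ}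

theorem unlink (h : NoK t G) (A : ℕ → Fin N → ℕ) (hd : ∀ i j a b, i ≠ j → A i a ≠ A j b) :
    ∃ φ : ℕ → ℕ, StrictMono φ ∧ ∀ i j, i ≠ j → ∀ a b, ¬ G.Adj (A (φ i) a) (A (φ j) b) := by
  classical
  obtain ⟨φ, hφ, hF⟩ := Pool.H17.TA.ramseyN (C := Fin N → Fin N → Prop) 2
    (fun u => fun a b => G.Adj (A (u 0) a) (A (u 1) b))
  have key : ∀ i j, i < j → ∀ a b, ¬ G.Adj (A (φ i) a) (A (φ j) b) := by
    intro i j hij a b hadj
    have hall : ∀ i' j', i' < j' → G.Adj (A (φ i') a) (A (φ j') b) := by
      intro i' j' hij'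
      have h1 : StrictMono (![i, j] : Fin 2 → ℕ) := by
        rw [Fin.strictMono_iff_lt_succ]
        intro k
        fin_cases k
        exact hij
      have h2 : StrictMono (![i', j'] : Fin 2 → ℕ) := by
        rw [Fin.strictMono_iff_lt_succ]
        intro k
        fin_cases k
        exact hij'
      have h3 := congrFun (congrFun (hF _ _ h1 h2) a) b
      have h4 : G.Adj (A (φ i) a) (A (φ j) b) = G.Adj (A (φ i') a) (A (φ j') b) := h3
      rw [← h4]
      exact hadj
    have hinj : ∀ (c : Fin N) (m : ℕ), Injective (fun k : ℕ => A (φ (m + k)) c) := by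
      intro c m k l hkl
      by_contra hne
      exact hd (φ (m + k)) (φ (m + l)) c c (fun h => hne (by
        have := hφ.injective h
        omega)) hkl
    obtain ⟨x, hx, y, hy, hxy⟩ := h ((Finset.range t).image fun k => A (φ (0 + k)) a)
      ((Finset.range t).image fun k => A (φ (t + k)) b)
      (by rw [Finset.card_image_of_injective _ (hinj a 0), Finset.card_range])
      (by rw [Finset.card_image_of_injective _ (hinj b t), Finset.card_range])
    rw [Finset.mem_image] at hx hy
    obtain ⟨k, hk, rfl⟩ := hx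
    obtain ⟨l, hl, rfl⟩ := hy
    rw [Finset.mem_range] at hk hl
    exact hxy (hall _ _ (by omega))
  refine ⟨φ, hφ, fun i j hij a b => ?_⟩
  rcases lt_or_gt_of_ne hij with h1 | h1
  · exact key i j h1 a b
  · intro h2
    exact key j i h1 b a h2.symm

end Pool.H22.DI
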