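import Pool.Agent.H22.DI.Geo

/-!
# Construction of the subdivision (module SBA)

Stages `j = 0, 1, ..`: let `U` be the finite set of all vertices `s i`, `x i' i c` (`i' < i < j`, `c ≤ r`) chosen
before; choose `s j ∈ S` outside `U`, then for `i < j` one after the other a path `x i j` from `s i` to `s j`
(`exists_exact`) avoiding `U` without `s i` and the interior vertices of the paths `x i' j`, `i' < i`. (A
recursion with values in `ℕ × (ℕ → ℕ → ℕ)` with the whole history, e.g. by strong recursion or an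
existence statement for finite stages with extension property.)
-/

set_option autoImplicit false

namespace Pool.H22.DI

open Set Function

variable {G : SimpleGraph ℕ} {S : Set ℕ} {r : ℕ}

/-- paths from the vertices in `V` to `s` -/
private theorem sb_paths (W : Finset ℕ) {s : ℕ} (hs : s ∈ S) (h0 : 0 < r)
    (h : ∀ u ∈ S, ∀ v ∈ S, u ≠ v → Sc G r u v ∧ ¬ Sc G (r - 1) u v) (V : Finset ℕ)
    (hV : ∀ v ∈ V, v ∈ S) (hsV : s ∉ V) :
    ∃ x : ℕ → ℕ → ℕ, (∀ v ∈ V, IPth G r (x v) ∧ x v 0 = v ∧ x v r = s ∧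
      ∀ c, 0 < c → c < r → x v c ∉ W) ∧ (∀ v, v ∉ V → ∀ c, x v c = s) ∧
      ∀ v ∈ V, ∀ v' ∈ V, v ≠ v' → ∀ c c', 0 < c → c < r → 0 < c' → c' < r →
        x v c ≠ x v' c' := by
  induction V using Finset.induction_on with
  | empty =>
    exact ⟨fun _ _ => s, fun v hv => absurd hv (Finset.notMem_empty v), fun _ _ _ => rfl,
      fun v hv => absurd hv (Finset.notMem_empty v)⟩
  | insert v V' hv ih =>
    have hsV' : s ∉ V' := fun hc => hsV (Finset.mem_insert_of_mem hc)
    have hvs : v ≠ s := fun hc => hsV (hc ▸ Finset.mem_insert_self v V')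
    obtain ⟨x, h1, h2, h3⟩ := ih (fun w hw => hV w (Finset.mem_insert_of_mem hw)) hsV'
    have hvS : v ∈ S := hV v (Finset.mem_insert_self v V')
    obtain ⟨ha, hb⟩ := h v hvS s hs hvs
    obtain ⟨B, hB⟩ : ∃ B : Finset ℕ, B = (W ∪ V'.biUnion fun w =>
        (Finset.range (r + 1)).image (x w)) := ⟨_, rfl⟩
    obtain ⟨p, p1, p2, p3, p4⟩ := exists_exact (Y := ((B \ {v, s} : Finset ℕ) : Set ℕ)) ha hb h0
      (Finset.finite_toSet _) (by simp) (by simp)
    have p5 : ∀ c, 0 < c → c < r → p c ∉ B := by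
      intro c hc hc' hcB
      apply p4 c hc'.le
      rw [Finset.mem_coe, Finset.mem_sdiff, Finset.mem_insert, Finset.mem_singleton]
      refine ⟨hcB, ?_⟩
      rintro (hc1 | hc1)
      · have h6 := p1.inj (Set.mem_Iic.2 hc'.le) (Set.mem_Iic.2 (Nat.zero_le r)) (hc1.trans p2.symm)
        omega
      · have h6 := p1.inj (Set.mem_Iic.2 hc'.le) (Set.mem_Iic.2 le_rfl) (hc1.trans p3.symm)
        omega
    have p6 : ∀ c, 0 < c → c < r → p c ∉ W := fun c hc hc' hcW =>
      p5 c hc hc' (hB ▸ Finset.mem_union_left _ hcW)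
    have p7 : ∀ c, 0 < c → c < r → ∀ w ∈ V', ∀ c', c' < r → p c ≠ x w c' := by
      intro c hc hc' w hw c' hc'' he
      apply p5 c hc hc'
      rw [hB, he]
      exact Finset.mem_union_right _ (Finset.mem_biUnion.2 ⟨w, hw,
        Finset.mem_image_of_mem _ (Finset.mem_range.2 (by omega))⟩)
    refine ⟨Function.update x v p, ?_, ?_, ?_⟩
    · intro w hw
      by_cases hwv : w = v
      · subst hwv
        rw [Function.update_self]
        exact ⟨p1, p2, p3, p6⟩
      · rw [Function.update_of_ne hwv]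
        exact h1 w ((Finset.mem_insert.1 hw).resolve_left hwv)
    · intro w hw c
      have hwv : w ≠ v := fun hc => hw (hc ▸ Finset.mem_insert_self v V')
      rw [Function.update_of_ne hwv]
      exact h2 w (fun hc => hw (Finset.mem_insert_of_mem hc)) c
    · intro w hw w' hw' hne c c' hc hcr hc' hcr'
      by_cases hwv : w = v
      · have hwv' : w' ≠ v := fun hc => hne (hwv.trans hc.symm)
        rw [hwv, Function.update_self, Function.update_of_ne hwv']
        exact p7 c hc hcr w' ((Finset.mem_insert.1 hw').resolve_left hwv') c' hcr'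
      · rw [Function.update_of_ne hwv]
        by_cases hwv' : w' = v
        · rw [hwv', Function.update_self]
          exact (p7 c' hc' hcr' w ((Finset.mem_insert.1 hw).resolve_left hwv) c hcr).symm
        · rw [Function.update_of_ne hwv']
          exact h3 w ((Finset.mem_insert.1 hw).resolve_left hwv) w'
            ((Finset.mem_insert.1 hw').resolve_left hwv') hne c c' hc hcr hc' hcr'

private abbrev El : Type := ℕ × (ℕ → ℕ → ℕ) × Finset ℕ

private structure Pe (S : Set ℕ) (r : ℕ) (y : El) : Prop where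
  mem : y.1 ∈ S
  sU : y.1 ∈ y.2.2
  xU : ∀ v c, c ≤ r → y.2.1 v c ∈ y.2.2
  dj : ∀ v v' c c', v ≠ v' → 0 < c → c < r → 0 < c' → c' < r → y.2.1 v c = y.2.1 v' c' →
    y.2.1 v c = y.1

private structure Re (G : SimpleGraph ℕ) (r : ℕ) (a b : El) : Prop where
  sU : b.1 ∉ a.2.2
  path : IPth G r (b.2.1 a.1)
  fst : b.2.1 a.1 0 = a.1
  lst : b.2.1 a.1 r = b.1
  xU : ∀ v c, 0 < c → c < r → b.2.1 v c ∉ a.2.2

theorem exists_sbd (hi : S.Infinite) (h0 : 0 < r)
    (h : ∀ u ∈ S, ∀ v ∈ S, u ≠ v → Sc G r u v ∧ ¬ Sc G (r - 1) u v) :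
    ∃ s x, Sbd G r s x ∧ ∀ i, s i ∈ S := by
  classical
  obtain ⟨f, hf1, hf2⟩ := exists_seq_of_forall_finset_exists (Pe S r) (Re G r) (by
    intro F hF
    obtain ⟨W, hW⟩ : ∃ W : Finset ℕ, W = F.biUnion fun a => a.2.2 := ⟨_, rfl⟩
    obtain ⟨s, hs, hsW⟩ := hi.exists_notMem_finset W
    have hUW : ∀ a ∈ F, ∀ z ∈ a.2.2, z ∈ W := by
      intro a ha z hz
      rw [hW]
      exact Finset.mem_biUnion.2 ⟨a, ha, hz⟩
    have hVS : ∀ v ∈ F.image (fun a => a.1), v ∈ S := by
      intro v hv
      obtain ⟨a, ha, rfl⟩ := Finset.mem_image.1 hv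
      exact (hF a ha).mem
    have hsV : s ∉ F.image (fun a => a.1) := by
      intro hc
      obtain ⟨a, ha, he⟩ := Finset.mem_image.1 hc
      apply hsW
      rw [← he]
      exact hUW a ha _ (hF a ha).sU
    obtain ⟨x, h1, h2, h3⟩ := sb_paths W hs h0 h (F.image (fun a => a.1)) hVS hsV
    refine ⟨(s, x, insert s ((F.image (fun a => a.1)).biUnion fun w =>
      (Finset.range (r + 1)).image (x w))), ⟨hs, Finset.mem_insert_self _ _, ?_, ?_⟩, ?_⟩
    · intro v c hc
      change x v c ∈ _
      by_cases hv : v ∈ F.image (fun a => a.1)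
      · exact Finset.mem_insert_of_mem (Finset.mem_biUnion.2 ⟨v, hv,
          Finset.mem_image_of_mem _ (Finset.mem_range.2 (by omega))⟩)
      · rw [h2 v hv c]
        exact Finset.mem_insert_self _ _
    · intro v v' c c' hne hc hcr hc' hcr' he
      change x v c = x v' c' at he
      change x v c = s
      by_cases hv : v ∈ F.image (fun a => a.1)
      · by_cases hv' : v' ∈ F.image (fun a => a.1)
        · exact absurd he (h3 v hv v' hv' hne c c' hc hcr hc' hcr')
        · rw [he]
          exact h2 v' hv' c'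
      · exact h2 v hv c
    · intro a ha
      have hv : a.1 ∈ F.image (fun a => a.1) := Finset.mem_image_of_mem _ ha
      obtain ⟨q1, q2, q3, q4⟩ := h1 a.1 hv
      refine ⟨fun hc => hsW (hUW a ha _ hc), q1, q2, q3, ?_⟩
      intro v c hc hcr hcU
      change x v c ∈ a.2.2 at hcU
      by_cases hv' : v ∈ F.image (fun a => a.1)
      · exact (h1 v hv').2.2.2 c hc hcr (hUW a ha _ hcU)
      · rw [h2 v hv' c] at hcU
        exact hsW (hUW a ha _ hcU))
  have hne : ∀ i j, i < j → (f i).1 ≠ (f j).1 := by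
    intro i j hij he
    exact (hf2 i j hij).sU (he ▸ (hf1 i).sU)
  have hinj : Injective (fun i => (f i).1) := by
    intro i j he
    rcases lt_trichotomy i j with hij | hij | hij
    · exact absurd he (hne i j hij)
    · exact hij
    · exact absurd he.symm (hne j i hij)
  refine ⟨fun i => (f i).1, fun i j => (f j).2.1 (f i).1, ⟨hinj, fun i j hij => (hf2 i j hij).path,
    fun i j hij => (hf2 i j hij).fst, fun i j hij => (hf2 i j hij).lst, ?_, ?_⟩,
    fun i => (hf1 i).mem⟩
  · intro i j i' j' c c' hij hij' hc hcr hc' hcr' he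
    change (f j).2.1 (f i).1 c = (f j').2.1 (f i').1 c' at he
    rcases lt_trichotomy j j' with hj | hj | hj
    · exfalso
      apply (hf2 j j' hj).xU (f i').1 c' hc' hcr'
      rw [← he]
      exact (hf1 j).xU _ c hcr.le
    · subst hj
      have hii : i = i' := by
        by_contra hne'
        have h4 := (hf1 j).dj (f i).1 (f i').1 c c' (fun hc => hne' (hinj hc)) hc hcr hc' hcr' he
        have h5 := (hf2 i j hij).path.inj (Set.mem_Iic.2 hcr.le) (Set.mem_Iic.2 le_rfl)
          (h4.trans (hf2 i j hij).lst.symm)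
        omega
      subst hii
      exact ⟨rfl, rfl, (hf2 i j hij).path.inj (Set.mem_Iic.2 hcr.le) (Set.mem_Iic.2 hcr'.le) he⟩
    · exfalso
      apply (hf2 j' j hj).xU (f i).1 c hc hcr
      rw [he]
      exact (hf1 j').xU _ c' hcr'.le
  · intro i j c k hij hc hcr he
    change (f j).2.1 (f i).1 c = (f k).1 at he
    rcases lt_trichotomy k j with hk | hk | hk
    · apply (hf2 k j hk).xU (f i).1 c hc hcr
      rw [he]
      exact (hf1 k).sU
    · subst hk
      have h5 := (hf2 i k hij).path.inj (Set.mem_Iic.2 hcr.le) (Set.mem_Iic.2 le_rfl)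
        (he.trans (hf2 i k hij).lst.symm)
      omega
    · apply (hf2 j k hk).sU
      rw [← he]
      exact (hf1 j).xU _ c hcr.le

end Pool.H22.DI
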