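import Pool.Agent.H22.D.GrA
import Pool.Agent.H17.TA.Ram

/-!
# THEOREM D for hereditary classes of graphs without `K_(t,t)`: definitions

Goal: a graph without a subgraph `K_(t,t)` and with an infinite set of pairwise inseparable vertices
contains every finite disjoint union of subdivided stars as an INDUCED subgraph.
-/

set_option autoImplicit false

namespace Pool.H22.DI

open Set Function

/-- no complete bipartite subgraph with parts of size `t` -/
def NoK (t : ℕ) (G : SimpleGraph ℕ) : Prop :=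
  ∀ A B : Finset ℕ, A.card = t → B.card = t → ∃ a ∈ A, ∃ b ∈ B, ¬ G.Adj a b

/-- pairwise inseparable vertices -/
def InsG (G : SimpleGraph ℕ) (S : Set ℕ) : Prop :=
  ∀ u ∈ S, ∀ v ∈ S, u ≠ v → ∀ Y : Set ℕ, Y.Finite → u ∉ Y → v ∉ Y →
    Relation.ReflTransGen (fun b c => c ∉ Y ∧ G.Adj b c) u v

/-- induced paths with `n` steps -/
structure IPth (G : SimpleGraph ℕ) (n : ℕ) (p : ℕ → ℕ) : Prop where
  inj : InjOn p (Iic n)
  adj : ∀ i ≤ n, ∀ j ≤ n, G.Adj (p i) (p j) ↔ (j = i + 1 ∨ i = j + 1)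

/-- walks from `u` to `v` with `n` steps avoiding `Y` except at `u` -/
def Wk (G : SimpleGraph ℕ) (Y : Set ℕ) (n u v : ℕ) : Prop :=
  ∃ p : ℕ → ℕ, p 0 = u ∧ p n = v ∧ (∀ j < n, G.Adj (p j) (p (j + 1))) ∧
    ∀ j ≤ n, 0 < j → p j ∉ Y

/-- `u` and `v` cannot be separated by finite sets if only walks with at most `r` steps count -/
def Sc (G : SimpleGraph ℕ) (r u v : ℕ) : Prop :=
  ∀ Y : Set ℕ, Y.Finite → u ∉ Y → v ∉ Y → ∃ n ≤ r, Wk G Y n u v

/-- induced paths with `n` steps starting in `s`, outside of every finite set -/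
def Legs (G : SimpleGraph ℕ) (n s : ℕ) : Prop :=
  ∀ F : Set ℕ, F.Finite → s ∉ F → ∃ p, IPth G n p ∧ p 0 = s ∧ ∀ j ≤ n, 0 < j → p j ∉ F

/-- an induced subdivision of the infinite complete graph with vertices `s i` and paths `x i j` (`i < j`) with
`r` steps, except that there may be edges between different paths and between paths and vertices -/
structure Sbd (G : SimpleGraph ℕ) (r : ℕ) (s : ℕ → ℕ) (x : ℕ → ℕ → ℕ → ℕ) : Prop where
  inj : Injective s
  path : ∀ i j, i < j → IPth G r (x i j)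
  fst : ∀ i j, i < j → x i j 0 = s i
  lst : ∀ i j, i < j → x i j r = s j
  dis : ∀ i j i' j' c c', i < j → i' < j' → 0 < c → c < r → 0 < c' → c' < r →
    x i j c = x i' j' c' → i = i' ∧ j = j' ∧ c = c'
  out : ∀ i j c k, i < j → 0 < c → c < r → x i j c ≠ s k

/-- no edges in the relative positions which are needed for long induced paths -/
structure Cln (G : SimpleGraph ℕ) (r : ℕ) (s : ℕ → ℕ) (x : ℕ → ℕ → ℕ → ℕ) : Prop where
  ss : ∀ i j, i < j → ¬ G.Adj (s i) (s j)
  sx : ∀ i j k c, i < j → j < k → 0 < c → c < r → ¬ G.Adj (s i) (x j k c)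
  xs : ∀ i j k c, i < j → j < k → 0 < c → c < r → ¬ G.Adj (x i j c) (s k)
  xx : ∀ i j k c c', i < j → j < k → 0 < c → c < r → 0 < c' → c' < r →
    ¬ G.Adj (x i j c) (x j k c')
  xy : ∀ i j k l c c', i < j → j < k → k < l → 0 < c → c < r → 0 < c' → c' < r →
    ¬ G.Adj (x i j c) (x k l c')

/-- induced stars: the centre `s`, disjoint legs with `n` steps without edges between them -/
structure Spd (G : SimpleGraph ℕ) (n s : ℕ) (π : ℕ → ℕ → ℕ) : Prop where
  leg : ∀ c, IPth G n (π c)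
  ctr : ∀ c, π c 0 = s
  dis : ∀ c c' j j', 0 < j → j ≤ n → 0 < j' → j' ≤ n → π c j = π c' j' → c = c'
  non : ∀ c c' j j', c ≠ c' → 0 < j → j ≤ n → 0 < j' → j' ≤ n → ¬ G.Adj (π c j) (π c' j')

end Pool.H22.DI
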