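import Pool.Agent.H22.DI.Unl

/-!
# Induced stars and their disjoint unions (module SP)

`exists_spd`: a sequence of legs `p 0, p 1, ..` of `s`, the leg `p c` avoiding `F` and the legs before (except at
`s`) (`exists_seq_of_forall_finset_exists` or recursion); `unlink` for the finite sets
`A c = (p c 1, .., p c n)`. `exists_forest`: a sequence of stars (only the legs `c < N` of each star are used, so
every star is a finite set): the star `b` avoids the vertices used before and its centre too (`S'` is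
infinite); `unlink` for the finite sets of all vertices of the stars (type `Fin (1 + N * n)` or any finite
enumeration).
-/

set_option autoImplicit false

namespace Pool.H22.DI

open Set Function

variable {G : SimpleGraph ℕ} {t n s : ℕ}

theorem exists_spd (hK : NoK t G) (h : Legs G n s) {F : Set ℕ} (hF : F.Finite) (hs : s ∉ F) :
    ∃ π, Spd G n s π ∧ ∀ c j, j ≤ n → π c j ∉ F := by
  obtain ⟨p, hp, hr⟩ := exists_seq_of_forall_finset_exists
    (fun p : ℕ → ℕ => IPth G n p ∧ p 0 = s ∧ ∀ j ≤ n, 0 < j → p j ∉ F)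
    (fun p q : ℕ → ℕ => ∀ j j', 0 < j → j ≤ n → 0 < j' → j' ≤ n → p j ≠ q j') (by
      intro σ hσ
      obtain ⟨F', hF'⟩ : ∃ F' : Set ℕ, F' = F ∪ ⋃ q ∈ σ, q '' Icc 1 n := ⟨_, rfl⟩
      have h1 : F'.Finite := by
        rw [hF']
        exact hF.union (σ.finite_toSet.biUnion fun q _ => (finite_Icc 1 n).image q)
      have h2 : s ∉ F' := by
        rw [hF', mem_union, not_or]
        refine ⟨hs, ?_⟩
        rw [mem_iUnion₂]
        rintro ⟨q, hq, j, hj, he⟩
        obtain ⟨h3, h4, -⟩ := hσ q hq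
        rw [← h4] at he
        have h5 := h3.inj (mem_Iic.2 hj.2) (mem_Iic.2 (Nat.zero_le n)) he
        have h6 := hj.1
        omega
      obtain ⟨q, h3, h4, h5⟩ := h F' h1 h2
      refine ⟨q, ⟨h3, h4, fun j hj hj0 hjF => h5 j hj hj0 ?_⟩, ?_⟩
      · rw [hF']
        exact Or.inl hjF
      · intro q' hq' j j' hj0 hj hj0' hj' he
        apply h5 j' hj' hj0'
        rw [hF', ← he]
        exact Or.inr (mem_iUnion₂.2 ⟨q', hq', j, ⟨hj0, hj⟩, rfl⟩))
  have hd : ∀ i j, i ≠ j → ∀ a b, 0 < a → a ≤ n → 0 < b → b ≤ n → p i a ≠ p j b := by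
    intro i j hij a b ha ha' hb hb'
    rcases Nat.lt_or_gt_of_ne hij with h1 | h1
    · exact hr i j h1 a b ha ha' hb hb'
    · exact (hr j i h1 b a hb hb' ha ha').symm
  obtain ⟨φ, hφ, hn⟩ := unlink (N := n) hK (fun c a => p c (a.1 + 1)) (by
    intro i j a b hij
    exact hd i j hij _ _ (Nat.succ_pos _) a.2 (Nat.succ_pos _) b.2)
  refine ⟨fun c => p (φ c), ⟨fun c => (hp _).1, fun c => (hp _).2.1, ?_, ?_⟩, ?_⟩
  · intro c c' j j' h1 h2 h3 h4 he
    by_contra hne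
    exact hd _ _ (fun h5 => hne (hφ.injective h5)) j j' h1 h2 h3 h4 he
  · intro c c' j j' hne h1 h2 h3 h4 he
    have h5 := hn c c' hne ⟨j - 1, by omega⟩ ⟨j' - 1, by omega⟩
    simp only [Nat.sub_add_cancel h1, Nat.sub_add_cancel h3] at h5
    exact h5 he
  · intro c j hj
    rcases Nat.eq_zero_or_pos j with h1 | h1
    · subst h1
      have h2 := (hp (φ c)).2.1
      show p (φ c) 0 ∉ F
      rw [h2]
      exact hs
    · exact (hp (φ c)).2.2 j hj h1

theorem exists_forest (hK : NoK t G) {S' : Set ℕ} (hi : S'.Infinite)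
    (h : ∀ s ∈ S', Legs G n s) (N : ℕ) : ∃ (ctr : ℕ → ℕ) (π : ℕ → ℕ → ℕ → ℕ),
      (∀ b, Spd G n (ctr b) (π b)) ∧
      (∀ b b' c c' j j', b ≠ b' → c < N → c' < N → j ≤ n → j' ≤ n →
        π b c j ≠ π b' c' j' ∧ ¬ G.Adj (π b c j) (π b' c' j')) := by
  obtain ⟨p, hp, hr⟩ := exists_seq_of_forall_finset_exists
    (fun p : ℕ × (ℕ → ℕ → ℕ) => Spd G n p.1 p.2)
    (fun p q : ℕ × (ℕ → ℕ → ℕ) => ∀ c c' j j', c < N → c' < N → j ≤ n → j' ≤ n →
      p.2 c j ≠ q.2 c' j') (by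
      intro σ hσ
      obtain ⟨F, hFd⟩ : ∃ F : Set ℕ, F = ⋃ q ∈ σ, (fun z : ℕ × ℕ => q.2 z.1 z.2) ''
        (Iio N ×ˢ Iic n) := ⟨_, rfl⟩
      have h1 : F.Finite := by
        rw [hFd]
        exact σ.finite_toSet.biUnion fun q _ => ((finite_Iio N).prod (finite_Iic n)).image _
      obtain ⟨s, hs, hsF⟩ := hi.exists_notMem_finite h1
      obtain ⟨π, h2, h3⟩ := exists_spd hK (h s hs) h1 hsF
      refine ⟨(s, π), h2, ?_⟩
      intro q hq c c' j j' hc hc' hj hj' he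
      apply h3 c' j' hj'
      have he' : q.2 c j = π c' j' := he
      rw [hFd, ← he']
      exact mem_iUnion₂.2 ⟨q, hq, (c, j), ⟨hc, hj⟩, rfl⟩)
  have hd : ∀ i k, i ≠ k → ∀ c c' j j', c < N → c' < N → j ≤ n → j' ≤ n →
      (p i).2 c j ≠ (p k).2 c' j' := by
    intro i k hik c c' j j' h1 h2 h3 h4
    rcases Nat.lt_or_gt_of_ne hik with h5 | h5
    · exact hr i k h5 c c' j j' h1 h2 h3 h4
    · exact (hr k i h5 c' c j' j h2 h1 h4 h3).symm
  obtain ⟨φ, hφ, hn⟩ := unlink (N := N * (n + 1)) hK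
    (fun b a => (p b).2 (a.1 / (n + 1)) (a.1 % (n + 1))) (by
    intro i j a b hij
    refine hd i j hij _ _ _ _ ?_ ?_ ?_ ?_
    · exact (Nat.div_lt_iff_lt_mul (Nat.succ_pos n)).2 a.2
    · exact (Nat.div_lt_iff_lt_mul (Nat.succ_pos n)).2 b.2
    · exact Nat.le_of_lt_succ (Nat.mod_lt _ (Nat.succ_pos n))
    · exact Nat.le_of_lt_succ (Nat.mod_lt _ (Nat.succ_pos n)))
  refine ⟨fun b => (p (φ b)).1, fun b => (p (φ b)).2, fun b => hp _, ?_⟩
  intro b b' c c' j j' hb hc hc' hj hj'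
  refine ⟨hd _ _ (fun h5 => hb (hφ.injective h5)) c c' j j' hc hc' hj hj', ?_⟩
  have key : ∀ x y, x < N → y ≤ n → ∃ hx : x * (n + 1) + y < N * (n + 1),
      (x * (n + 1) + y) / (n + 1) = x ∧ (x * (n + 1) + y) % (n + 1) = y := by
    intro x y hx hy
    refine ⟨?_, ?_, ?_⟩
    · calc x * (n + 1) + y < x * (n + 1) + (n + 1) := by omega
        _ = (x + 1) * (n + 1) := by ring
        _ ≤ N * (n + 1) := Nat.mul_le_mul_right _ hx
    · rw [Nat.add_comm, Nat.add_mul_div_right _ _ (Nat.succ_pos n),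
        Nat.div_eq_of_lt (Nat.lt_succ_of_le hy), Nat.zero_add]
    · rw [Nat.add_comm, Nat.add_mul_mod_self_right, Nat.mod_eq_of_lt (Nat.lt_succ_of_le hy)]
  obtain ⟨h1, h2, h3⟩ := key c j hc hj
  obtain ⟨h1', h2', h3'⟩ := key c' j' hc' hj'
  have h5 := hn b b' hb ⟨_, h1⟩ ⟨_, h1'⟩
  simp only [h2, h3, h2', h3'] at h5
  exact h5

end Pool.H22.DI
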