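import Pool.Agent.H22.DI.Df

/-!
# Subgraphs of stars are induced subgraphs of stars (module ST)

`stars_acyclic`: every vertex `(b, some (c, j))` has exactly one neighbour nearer to the centre (with the level
`none ↦ 0`, `some (c, j) ↦ j + 1` adjacent vertices have levels which differ by one); a cycle has a vertex of
maximal level, which has two different neighbours of smaller level on the cycle. (Or: unique paths by
induction.) `ind_of_sub`: let `f : H → Stars` be an injective homomorphism; number the connected
components of `H` injectively, `κ u`, and let `f' u = (κ u, (f u).2)`. The first coordinate of `f` is constant on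
the components. `f'` is injective. If `f' u`, `f' v` are adjacent then `u`, `v` are in the same component and
`f u`, `f v` are adjacent; a path of `H` from `u` to `v` is mapped by `f` to a path of `Stars` from `f u` to
`f v`, which is unique (`SimpleGraph.IsAcyclic.path_unique`), so it has one step and `H.Adj u v`.
-/

set_option autoImplicit false

namespace Pool.H22.DI

open Set Function Pool.H22.D

/-- adjacency inside one star -/
private def RS (x y : Option (ℕ × ℕ)) : Prop :=
  (x = none ∧ ∃ c, y = some (c, 0)) ∨ ∃ c j, x = some (c, j) ∧ y = some (c, j + 1)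

private theorem rs_ne {x y : Option (ℕ × ℕ)} (h : RS x y) : x ≠ y := by
  rcases h with ⟨rfl, c, rfl⟩ | ⟨c, j, rfl, rfl⟩
  · simp
  · simp

private theorem adj_iff (u v : ℕ × Option (ℕ × ℕ)) :
    Stars.Adj u v ↔ u.1 = v.1 ∧ (RS u.2 v.2 ∨ RS v.2 u.2) := by
  unfold Stars
  rw [SimpleGraph.fromRel_adj]
  constructor
  · rintro ⟨-, h | h⟩
    · exact ⟨h.1, Or.inl h.2⟩
    · exact ⟨h.1.symm, Or.inr h.2⟩
  · rintro ⟨h1, h | h⟩
    · exact ⟨fun he => rs_ne h (by rw [he]), Or.inl ⟨h1, h⟩⟩
    · exact ⟨fun he => rs_ne h (by rw [he]), Or.inr ⟨h1.symm, h⟩⟩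

/-- the part of a leg behind an edge is closed under adjacency in the graph without the edge -/
private theorem bridge_aux {b c m : ℕ} {u : ℕ × Option (ℕ × ℕ)}
    (hu : u.1 = b) (hR : RS u.2 (some (c, m))) :
    ¬ (Stars.deleteEdges {s(u, (b, some (c, m)))}).Reachable (b, some (c, m)) u := by
  intro hre
  rw [SimpleGraph.reachable_iff_reflTransGen] at hre
  have key : ∀ y : ℕ × Option (ℕ × ℕ), Relation.ReflTransGen
      (Stars.deleteEdges {s(u, (b, some (c, m)))}).Adj (b, some (c, m)) y →
      ∃ i, m ≤ i ∧ y = (b, some (c, i)) := by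
    intro y hy
    induction hy with
    | refl => exact ⟨m, le_rfl, rfl⟩
    | tail _ hadj ih =>
      rename_i x z _
      obtain ⟨i, hi, rfl⟩ := ih
      rw [SimpleGraph.deleteEdges_adj] at hadj
      obtain ⟨h1, h2⟩ := hadj
      rw [adj_iff] at h1
      obtain ⟨h1, h3⟩ := h1
      obtain ⟨z1, z2⟩ := z
      simp only at h1 h3
      subst h1
      rcases h3 with h3 | h3
      · rcases h3 with ⟨h4, -⟩ | ⟨c', j, h4, h5⟩
        · simp at h4
        · simp only [Option.some.injEq, Prod.mk.injEq] at h4
          obtain ⟨rfl, rfl⟩ := h4
          exact ⟨i + 1, by omega, by rw [h5]⟩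
      · rcases h3 with ⟨h4, c', h5⟩ | ⟨c', j, h4, h5⟩
        · simp only [Option.some.injEq, Prod.mk.injEq] at h5
          obtain ⟨rfl, rfl⟩ := h5
          exfalso
          have hm : m = 0 := by omega
          subst hm
          apply h2
          have hu2 : u.2 = none := by
            rcases hR with ⟨h6, -⟩ | ⟨c', j, -, h6⟩
            · exact h6
            · simp at h6
          have hue : u = (b, z2) := by
            rw [h4]
            exact Prod.ext hu hu2
          rw [hue, Sym2.eq_swap]
          rfl
        · simp only [Option.some.injEq, Prod.mk.injEq] at h5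
          obtain ⟨rfl, rfl⟩ := h5
          by_cases hm : m = j + 1
          · exfalso
            subst hm
            apply h2
            have hu2 : u.2 = some (c, j) := by
              rcases hR with ⟨-, c', h6⟩ | ⟨c', j', h6, h7⟩
              · simp at h6
              · simp only [Option.some.injEq, Prod.mk.injEq] at h7
                obtain ⟨rfl, h8⟩ := h7
                rw [h6]
                have : j' = j := by omega
                rw [this]
            have hue : u = (b, z2) := by
              rw [h4]
              exact Prod.ext hu hu2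
            rw [hue, Sym2.eq_swap]
            rfl
          · exact ⟨j, by omega, by rw [h4]⟩
  obtain ⟨i, hi, hui⟩ := key u hre
  rw [hui] at hR
  rcases hR with ⟨h6, -⟩ | ⟨c', j, h6, h7⟩
  · simp at h6
  · simp only [Option.some.injEq, Prod.mk.injEq] at h6 h7
    omega

theorem stars_acyclic : Stars.IsAcyclic := by
  rw [SimpleGraph.isAcyclic_iff_forall_adj_isBridge]
  have main : ∀ u v : ℕ × Option (ℕ × ℕ), u.1 = v.1 → RS u.2 v.2 →
      ¬ (Stars.deleteEdges {s(u, v)}).Reachable v u := by
    rintro u ⟨b, y⟩ h1 h2
    have hy : ∃ c m, y = some (c, m) := by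
      rcases h2 with ⟨-, c, h3⟩ | ⟨c, j, -, h3⟩
      · exact ⟨c, 0, h3⟩
      · exact ⟨c, j + 1, h3⟩
    obtain ⟨c, m, rfl⟩ := hy
    exact bridge_aux h1 h2
  intro u v huv
  rw [SimpleGraph.isBridge_iff]
  rw [adj_iff] at huv
  obtain ⟨h1, h2 | h2⟩ := huv
  · exact fun h => main u v h1 h2 h.symm
  · have h3 := main v u h1.symm h2
    rwa [Sym2.eq_swap] at h3

theorem ind_of_sub {n : ℕ} {H : SimpleGraph (Fin n)} (h : H.IsContained Stars) :
    Nonempty (H ↪g Stars) := by
  obtain ⟨f⟩ := h
  -- the first coordinate is constant on the components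
  have hfst : ∀ u v : Fin n, H.Reachable u v → (f u).1 = (f v).1 := by
    intro u v hre
    rw [SimpleGraph.reachable_iff_reflTransGen] at hre
    induction hre with
    | refl => rfl
    | tail _ hadj ih =>
      rw [ih]
      exact ((adj_iff _ _).1 (f.toHom.map_adj hadj)).1
  haveI : Countable H.ConnectedComponent :=
    Function.Surjective.countable (f := H.connectedComponentMk) Quot.mk_surjective
  obtain ⟨κ, hκ⟩ := Countable.exists_injective_nat H.ConnectedComponent
  have hcomp : ∀ u v : Fin n, κ (H.connectedComponentMk u) = κ (H.connectedComponentMk v) →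
      H.Reachable u v := fun u v he => SimpleGraph.ConnectedComponent.exact (hκ he)
  refine ⟨⟨⟨fun u => (κ (H.connectedComponentMk u), (f u).2), ?_⟩, ?_⟩⟩
  · intro u v he
    simp only [Prod.mk.injEq] at he
    exact f.injective (Prod.ext (hfst u v (hcomp u v he.1)) he.2)
  · intro u v
    simp only [Function.Embedding.coeFn_mk]
    constructor
    · intro hadj
      rw [adj_iff] at hadj
      have hre := hcomp u v hadj.1
      have hadj2 : Stars.Adj (f u) (f v) := (adj_iff _ _).2 ⟨hfst u v hre, hadj.2⟩
      obtain ⟨p, hp⟩ := hre.exists_isPath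
      have hq : (p.map f.toHom).IsPath := SimpleGraph.Walk.map_isPath_of_injective f.injective hp
      have hun := stars_acyclic.path_unique ⟨p.map f.toHom, hq⟩ (SimpleGraph.Path.singleton hadj2)
      have hlen : (p.map f.toHom).length = 1 := by
        have := congrArg (fun r : Stars.Path (f u) (f v) => r.1.length) hun
        simpa using this
      rw [SimpleGraph.Walk.length_map] at hlen
      exact SimpleGraph.Walk.adj_of_length_eq_one hlen
    · intro hadj
      have h1 : Stars.Adj (f u) (f v) := f.toHom.map_adj hadj
      rw [adj_iff] at h1 ⊢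
      exact ⟨by rw [SimpleGraph.ConnectedComponent.sound hadj.reachable], h1.2⟩

end Pool.H22.DI
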