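import Pool.Agent.H22.DI.Leg
import Pool.Agent.H22.DI.Sp
import Pool.Agent.H22.DI.St

/-!
# Induced unions of subdivided stars (module FIN)

Let `f : H ↪g Stars`. Choose `N` with all stars, legs and positions of the values of `f` smaller than `N`, and
`n = N`; `exists_legs`, `exists_forest`; map `u` with `f u = (b, none)` to `ctr b` and `u` with
`f u = (b, some (c, j))` to `π b c (j + 1)`. It is an embedding of induced subgraphs by the rules of `Spd`
and `exists_forest` (vertices of different stars: different and not adjacent; the same leg: `IPth`; different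
legs: `Spd.dis`, `Spd.non`; the centre and `π b c (j + 1)`: `IPth` with `π b c 0 = ctr b`).
-/

set_option autoImplicit false

namespace Pool.H22.DI

open Set Function Pool.H22.D

private theorem fin_adj (b b' : ℕ) (x x' : Option (ℕ × ℕ)) : Stars.Adj (b, x) (b', x') ↔
    b = b' ∧ ((x = none ∧ ∃ c, x' = some (c, 0)) ∨ (∃ c j, x = some (c, j) ∧ x' = some (c, j + 1)) ∨
      (x' = none ∧ ∃ c, x = some (c, 0)) ∨ ∃ c j, x' = some (c, j) ∧ x = some (c, j + 1)) := by
  unfold Stars
  rw [SimpleGraph.fromRel_adj]
  constructor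
  · rintro ⟨-, ⟨hb, h | h⟩ | ⟨hb, h | h⟩⟩
    · exact ⟨hb, Or.inl h⟩
    · exact ⟨hb, Or.inr (Or.inl h)⟩
    · exact ⟨hb.symm, Or.inr (Or.inr (Or.inl h))⟩
    · exact ⟨hb.symm, Or.inr (Or.inr (Or.inr h))⟩
  · rintro ⟨rfl, ⟨rfl, c, rfl⟩ | ⟨c, j, rfl, rfl⟩ | ⟨rfl, c, rfl⟩ | ⟨c, j, rfl, rfl⟩⟩
    · exact ⟨by simp, Or.inl ⟨rfl, Or.inl ⟨rfl, c, rfl⟩⟩⟩
    · exact ⟨by simp, Or.inl ⟨rfl, Or.inr ⟨c, j, rfl, rfl⟩⟩⟩
    · exact ⟨by simp, Or.inr ⟨rfl, Or.inl ⟨rfl, c, rfl⟩⟩⟩
    · exact ⟨by simp, Or.inr ⟨rfl, Or.inr ⟨c, j, rfl, rfl⟩⟩⟩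

/-- the vertices with legs and positions smaller than `N` -/
private def FinB (N : ℕ) (x : Option (ℕ × ℕ)) : Prop := ∀ c j, x = some (c, j) → c < N ∧ j < N

/-- the leg and the position of a vertex -/
private def finP (x : Option (ℕ × ℕ)) : ℕ × ℕ :=
  match x with
  | none => (0, 0)
  | some (c, j) => (c, j + 1)

private theorem fin_key {G : SimpleGraph ℕ} {N : ℕ} (hN : 0 < N) {ctr : ℕ → ℕ} {π : ℕ → ℕ → ℕ → ℕ}
    (h1 : ∀ b, Spd G N (ctr b) (π b))
    (h2 : ∀ b b' c c' j j', b ≠ b' → c < N → c' < N → j ≤ N → j' ≤ N →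
      π b c j ≠ π b' c' j' ∧ ¬ G.Adj (π b c j) (π b' c' j'))
    {b b' : ℕ} {x x' : Option (ℕ × ℕ)} (hx : FinB N x) (hx' : FinB N x') :
    (π b (finP x).1 (finP x).2 = π b' (finP x').1 (finP x').2 → (b, x) = (b', x')) ∧
    (G.Adj (π b (finP x).1 (finP x).2) (π b' (finP x').1 (finP x').2) ↔ Stars.Adj (b, x) (b', x')) := by
  have hbd : ∀ y : Option (ℕ × ℕ), FinB N y → (finP y).1 < N ∧ (finP y).2 ≤ N := by
    intro y hy
    cases y with
    | none => exact ⟨hN, Nat.zero_le _⟩
    | some p =>
      obtain ⟨c, j⟩ := p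
      exact hy c j rfl
  by_cases hb : b = b'
  · subst hb
    have hS := h1 b
    have h0 : ∀ c, π b c 0 = π b 0 0 := fun c => by rw [hS.ctr, hS.ctr]
    cases x with
    | none =>
      cases x' with
      | none =>
        refine ⟨fun _ => rfl, ?_⟩
        constructor
        · intro h
          exact absurd h (G.loopless.irrefl _)
        · intro h
          exact absurd h (Stars.loopless.irrefl _)
      | some p =>
        obtain ⟨c, j⟩ := p
        have hj := (hx' c j rfl).2
        have hp := hS.leg c
        change (π b 0 0 = π b c (j + 1) → _) ∧ (G.Adj (π b 0 0) (π b c (j + 1)) ↔ _)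
        rw [← h0 c]
        constructor
        · intro h
          have := hp.inj (show 0 ∈ Iic N from Nat.zero_le _) (show j + 1 ∈ Iic N from hj) h
          omega
        · rw [hp.adj 0 (Nat.zero_le _) (j + 1) hj, fin_adj]
          constructor
          · intro h
            have hj0 : j = 0 := by omega
            subst hj0
            exact ⟨rfl, Or.inl ⟨rfl, c, rfl⟩⟩
          · rintro ⟨-, ⟨-, c', h⟩ | ⟨c', j', h, -⟩ | ⟨h, -⟩ | ⟨c', j', -, h⟩⟩
            · have := Option.some.inj h
              rw [Prod.mk.injEq] at this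
              omega
            · cases h
            · cases h
            · cases h
    | some p =>
      obtain ⟨c, j⟩ := p
      have hj := (hx c j rfl).2
      have hp := hS.leg c
      cases x' with
      | none =>
        change (π b c (j + 1) = π b 0 0 → _) ∧ (G.Adj (π b c (j + 1)) (π b 0 0) ↔ _)
        rw [← h0 c]
        constructor
        · intro h
          have := hp.inj (show j + 1 ∈ Iic N from hj) (show 0 ∈ Iic N from Nat.zero_le _) h
          omega
        · rw [hp.adj (j + 1) hj 0 (Nat.zero_le _), fin_adj]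
          constructor
          · intro h
            have hj0 : j = 0 := by omega
            subst hj0
            exact ⟨rfl, Or.inr (Or.inr (Or.inl ⟨rfl, c, rfl⟩))⟩
          · rintro ⟨-, ⟨h, -⟩ | ⟨c', j', -, h⟩ | ⟨-, c', h⟩ | ⟨c', j', h, -⟩⟩
            · cases h
            · cases h
            · have := Option.some.inj h
              rw [Prod.mk.injEq] at this
              omega
            · cases h
      | some p' =>
        obtain ⟨c', j'⟩ := p'
        have hj' := (hx' c' j' rfl).2
        change (π b c (j + 1) = π b c' (j' + 1) → _) ∧ (G.Adj (π b c (j + 1)) (π b c' (j' + 1)) ↔ _)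
        by_cases hc : c = c'
        · subst hc
          constructor
          · intro h
            have := hp.inj (show j + 1 ∈ Iic N from hj) (show j' + 1 ∈ Iic N from hj') h
            have hjj : j = j' := by omega
            rw [hjj]
          · rw [hp.adj (j + 1) hj (j' + 1) hj', fin_adj]
            constructor
            · rintro (h | h)
              · have hjj : j' = j + 1 := by omega
                exact ⟨rfl, Or.inr (Or.inl ⟨c, j, rfl, by rw [hjj]⟩)⟩
              · have hjj : j = j' + 1 := by omega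
                exact ⟨rfl, Or.inr (Or.inr (Or.inr ⟨c, j', rfl, by rw [hjj]⟩))⟩
            · rintro ⟨-, ⟨h, -⟩ | ⟨c1, j1, e1, e2⟩ | ⟨h, -⟩ | ⟨c1, j1, e1, e2⟩⟩
              · cases h
              · have e1' := Option.some.inj e1
                have e2' := Option.some.inj e2
                rw [Prod.mk.injEq] at e1' e2'
                omega
              · cases h
              · have e1' := Option.some.inj e1
                have e2' := Option.some.inj e2
                rw [Prod.mk.injEq] at e1' e2'
                omega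
        · constructor
          · intro h
            exact absurd (hS.dis c c' (j + 1) (j' + 1) (by omega) hj (by omega) hj' h) hc
          · constructor
            · intro h
              exact absurd h (hS.non c c' (j + 1) (j' + 1) hc (by omega) hj (by omega) hj')
            · rw [fin_adj]
              rintro ⟨-, ⟨h, -⟩ | ⟨c1, j1, e1, e2⟩ | ⟨h, -⟩ | ⟨c1, j1, e1, e2⟩⟩
              · cases h
              · have e1' := Option.some.inj e1
                have e2' := Option.some.inj e2
                rw [Prod.mk.injEq] at e1' e2'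
                exact absurd (e1'.1.trans e2'.1.symm) hc
              · cases h
              · have e1' := Option.some.inj e1
                have e2' := Option.some.inj e2
                rw [Prod.mk.injEq] at e1' e2'
                exact absurd (e2'.1.trans e1'.1.symm) hc
  · obtain ⟨hne, hna⟩ := h2 b b' (finP x).1 (finP x').1 (finP x).2 (finP x').2 hb (hbd x hx).1 (hbd x' hx').1
      (hbd x hx).2 (hbd x' hx').2
    refine ⟨fun h => absurd h hne, ⟨fun h => absurd h hna, fun h => ?_⟩⟩
    exact absurd ((fin_adj _ _ _ _).1 h).1 hb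

private theorem fin_bound {k : ℕ} (f : Fin k → ℕ × Option (ℕ × ℕ)) : ∃ N, 0 < N ∧ ∀ i, FinB N (f i).2 := by
  have hfin : (range fun i => (f i).2.elim 0 fun p => p.1 + p.2).Finite := finite_range _
  obtain ⟨M, hM⟩ := hfin.bddAbove
  refine ⟨M + 1, by omega, fun i c j h => ?_⟩
  have h1 : (f i).2.elim 0 (fun p => p.1 + p.2) ≤ M := hM ⟨i, rfl⟩
  rw [h] at h1
  have h2 : c + j ≤ M := h1
  omega

theorem induced_stars {G : SimpleGraph ℕ} {S : Set ℕ} {t : ℕ} (hK : NoK t G) (hS : InsG G S)
    (hi : S.Infinite) {k : ℕ} {H : SimpleGraph (Fin k)} (h : H.IsContained Stars) :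
    Nonempty (H ↪g G) := by
  obtain ⟨f⟩ := ind_of_sub h
  obtain ⟨N, hN, hf⟩ := fin_bound (fun i => f i)
  obtain ⟨S', hS', hleg⟩ := exists_legs hK hS hi N
  obtain ⟨ctr, π, h1, h2⟩ := exists_forest hK hS' hleg N
  refine ⟨⟨⟨fun i => π (f i).1 (finP (f i).2).1 (finP (f i).2).2, ?_⟩, ?_⟩⟩
  · intro i j hij
    have := (fin_key hN h1 h2 (b := (f i).1) (b' := (f j).1) (hf i) (hf j)).1 hij
    exact f.injective this
  · intro i j
    exact ((fin_key hN h1 h2 (b := (f i).1) (b' := (f j).1) (hf i) (hf j)).2).trans f.map_adj_iff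

end Pool.H22.DI
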