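import Pool.Agent.H22.DI.Fin
import Pool.Agent.H22.D.Thm

/-!
# Hereditary classes of graphs with finite basis and without `K_(t,t)` (module RESA)

`hg_sparse`: `Sparse y` is `InsG G S → S.Finite` (compare `Adj`, `Pool/Agent/H22/D/Df.lean`); `induced_stars`.
`hg_inv`, `hg_closed`: as `fb_inv`, `fb_closed` (`Pool/Agent/H22/D/ThmA.lean`): `y ∈ Hg t F` iff `y` is symmetric
and irreflexive (closed), for all finite `A`, `B` of size `t` there are `a ∈ A`, `b ∈ B` with `y a b 0 = false`, and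
for all `H ∈ F` and injective `f : Fin n → ℕ` there are `a b` with `¬ (y (f a) (f b) 0 = true ↔ H.Adj a b)`:
intersections of closed sets.
-/

set_option autoImplicit false

namespace Pool.H22.DI

open Set Function Pool.H22.D Pool.H63.MQ

/-- graphs on `ℕ` without induced subgraphs in `F` and without subgraph `K_(t,t)` -/
def Hg (t : ℕ) (F : Set (Σ n : ℕ, SimpleGraph (Fin n))) : Set (Mx (Fin 1 → Bool)) :=
  {y | ∃ G : SimpleGraph ℕ, (∀ u v, y u v 0 = true ↔ G.Adj u v) ∧ NoK t G ∧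
    ∀ H ∈ F, ¬ Nonempty (H.2 ↪g G)}

variable {t : ℕ} {F : Set (Σ n : ℕ, SimpleGraph (Fin n))}

theorem hg_sparse {y : Mx (Fin 1 → Bool)} (hy : y ∈ Hg t F) (hF : ∃ H ∈ F, H.2.IsContained Stars) :
    Sparse y := by
  obtain ⟨G, hG, hK, hFG⟩ := hy
  obtain ⟨H, hHF, hH⟩ := hF
  intro S hS
  by_contra hi
  have hadj : ∀ b c, Adj y b c ↔ G.Adj b c := by
    intro b c
    constructor
    · rintro ⟨-, i, h | h⟩
      · rw [Subsingleton.elim i 0] at h
        exact (hG b c).1 h
      · rw [Subsingleton.elim i 0] at h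
        exact ((hG c b).1 h).symm
    · intro h
      exact ⟨h.ne, 0, Or.inl ((hG b c).2 h)⟩
  have hIns : InsG G S := by
    intro u hu v hv huv Y hY huY hvY
    have h0 := hS u hu v hv huv Y hY huY hvY
    exact Relation.ReflTransGen.mono (fun b c hbc => ⟨hbc.1, (hadj b c).1 hbc.2⟩) _ _ h0
  exact hFG H hHF (induced_stars hK hIns hi hH)

private theorem ra_cont (u v : ℕ) (i : Fin 1) :
    Continuous (fun y : Mx (Fin 1 → Bool) => y u v i) :=
  (continuous_apply i).comp ((continuous_apply v).comp (continuous_apply u))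

private theorem ra_clopen (u v : ℕ) (i : Fin 1) (s : Set Bool) :
    IsClosed {y : Mx (Fin 1 → Bool) | y u v i ∈ s} :=
  (isClosed_discrete s).preimage (ra_cont u v i)

private theorem ra_iff (t : ℕ) (F : Set (Σ n : ℕ, SimpleGraph (Fin n)))
    (y : Mx (Fin 1 → Bool)) : y ∈ Hg t F ↔
    (∀ u v, y u v 0 = y v u 0) ∧ (∀ u, y u u 0 ∈ ({false} : Set Bool)) ∧
    (∀ A B : Finset ℕ, A.card = t → B.card = t →
      ∃ a ∈ A, ∃ b ∈ B, y a b 0 ∈ ({false} : Set Bool)) ∧
    ∀ H ∈ F, ∀ f : Fin H.1 → ℕ, Injective f →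
      ∃ a b, y (f a) (f b) 0 ∈ {s : Bool | ¬ (s = true ↔ H.2.Adj a b)} := by
  constructor
  · rintro ⟨G, hG, hK, hFG⟩
    refine ⟨?_, ?_, ?_, ?_⟩
    · intro u v
      rw [Bool.eq_iff_iff, hG, hG, SimpleGraph.adj_comm]
    · intro u
      rw [mem_singleton_iff, Bool.eq_false_iff]
      intro h
      exact G.irrefl ((hG u u).1 h)
    · intro A B hA hB
      obtain ⟨a, ha, b, hb, h⟩ := hK A B hA hB
      refine ⟨a, ha, b, hb, ?_⟩
      rw [mem_singleton_iff, Bool.eq_false_iff]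
      exact fun h' => h ((hG a b).1 h')
    · intro H hH f hf
      by_contra hcon
      apply hFG H hH
      refine ⟨⟨⟨f, hf⟩, ?_⟩⟩
      intro a b
      have h1 : (y (f a) (f b) 0 = true ↔ H.2.Adj a b) := by
        by_contra h2
        exact hcon ⟨a, b, h2⟩
      exact (hG _ _).symm.trans h1
  · rintro ⟨h1, h2, h3, h4⟩
    let G : SimpleGraph ℕ :=
      { Adj := fun u v => y u v 0 = true
        symm := ⟨fun u v h => by rw [← h1 u v]; exact h⟩
        loopless := ⟨fun u h => by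
          have := h2 u
          rw [mem_singleton_iff] at this
          rw [this] at h
          exact absurd h (by decide)⟩ }
    refine ⟨G, fun u v => Iff.rfl, ?_, ?_⟩
    · intro A B hA hB
      obtain ⟨a, ha, b, hb, h⟩ := h3 A B hA hB
      refine ⟨a, ha, b, hb, ?_⟩
      intro h'
      have h5 : y a b 0 = true := h'
      rw [mem_singleton_iff] at h
      rw [h] at h5
      exact absurd h5 (by decide)
    · rintro H hH ⟨f⟩
      obtain ⟨a, b, hab⟩ := h4 H hH f f.injective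
      simp only [mem_ofPred_eq] at hab
      exact hab (f.map_rel_iff' (a := a) (b := b))

theorem hg_closed (t : ℕ) (F : Set (Σ n : ℕ, SimpleGraph (Fin n))) : IsClosed (Hg t F) := by
  have h : Hg t F = {y : Mx (Fin 1 → Bool) |
    (∀ u v, y u v 0 = y v u 0) ∧ (∀ u, y u u 0 ∈ ({false} : Set Bool)) ∧
    (∀ A B : Finset ℕ, A.card = t → B.card = t →
      ∃ a ∈ A, ∃ b ∈ B, y a b 0 ∈ ({false} : Set Bool)) ∧
    ∀ H ∈ F, ∀ f : Fin H.1 → ℕ, Injective f →
      ∃ a b, y (f a) (f b) 0 ∈ {s : Bool | ¬ (s = true ↔ H.2.Adj a b)}} := by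
    ext y
    exact ra_iff t F y
  rw [h]
  simp only [ofPred_and, ofPred_forall]
  refine IsClosed.inter ?_ (IsClosed.inter ?_ (IsClosed.inter ?_ ?_))
  · refine isClosed_iInter fun u => isClosed_iInter fun v => ?_
    exact isClosed_eq (ra_cont u v 0) (ra_cont v u 0)
  · exact isClosed_iInter fun u => ra_clopen u u 0 _
  · refine isClosed_iInter fun A => isClosed_iInter fun B => isClosed_iInter fun _ =>
      isClosed_iInter fun _ => ?_
    have h1 : {y : Mx (Fin 1 → Bool) | ∃ a ∈ A, ∃ b ∈ B, y a b 0 ∈ ({false} : Set Bool)} =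
        ⋃ a ∈ A, ⋃ b ∈ B, {y : Mx (Fin 1 → Bool) | y a b 0 ∈ ({false} : Set Bool)} := by
      ext y
      simp only [mem_ofPred_eq, mem_iUnion, exists_prop]
    rw [h1]
    exact isClosed_biUnion_finset fun a _ => isClosed_biUnion_finset fun b _ =>
      ra_clopen a b 0 _
  · refine isClosed_iInter fun H => isClosed_iInter fun _ => isClosed_iInter fun f =>
      isClosed_iInter fun _ => ?_
    have h1 : {y : Mx (Fin 1 → Bool) | ∃ a b, y (f a) (f b) 0 ∈
        {s : Bool | ¬ (s = true ↔ H.2.Adj a b)}} =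
        ⋃ a, ⋃ b, {y : Mx (Fin 1 → Bool) | y (f a) (f b) 0 ∈
        {s : Bool | ¬ (s = true ↔ H.2.Adj a b)}} := by
      ext y
      simp only [mem_ofPred_eq, mem_iUnion]
    rw [h1]
    exact isClosed_iUnion_of_finite fun a => isClosed_iUnion_of_finite fun b =>
      ra_clopen (f a) (f b) 0 _

theorem hg_inv {x y : Mx (Fin 1 → Bool)} (h : IsoM x y) (hx : x ∈ Hg t F) : y ∈ Hg t F := by
  obtain ⟨σ, hσ⟩ := h
  obtain ⟨G, hG, hK, hFG⟩ := hx
  refine ⟨G.comap σ.symm, ?_, ?_, ?_⟩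
  · intro u v
    rw [SimpleGraph.comap_adj, ← hG, ← hσ, σ.apply_symm_apply, σ.apply_symm_apply]
  · intro A B hA hB
    obtain ⟨a, ha, b, hb, hab⟩ := hK (A.map σ.symm.toEmbedding) (B.map σ.symm.toEmbedding)
      (by rw [Finset.card_map, hA]) (by rw [Finset.card_map, hB])
    rw [Finset.mem_map] at ha hb
    obtain ⟨a', ha', rfl⟩ := ha
    obtain ⟨b', hb', rfl⟩ := hb
    exact ⟨a', ha', b', hb', fun h => hab h⟩
  · rintro H hH ⟨f⟩
    exact hFG H hH ⟨(SimpleGraph.Iso.comap σ.symm G).toEmbedding.comp f⟩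

end Pool.H22.DI
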