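import Pool.Agent.H22.DI.ResA
import Pool.Agent.H22.D.Gr

/-!
# The hard side (module RESB)

`hg_hard`: let `F'` be the finite set consisting of the members of `F` and of the cycle `C₄` (`0-1-2-3-0` on
`Fin 4`). No member of `F'` is contained in `Stars` (`stars_acyclic`, file `St.lean`). The class `Gf F'` (`F'` as
forbidden SUBGRAPHS, see `Gr.lean`, `GrA.lean`) is contained in `Hg t F`: an induced subgraph is a subgraph, and a
`K_(t,t)` contains `C₄` since `2 ≤ t`. So `SV (Hg t F)` implies `SV (Gf F')` (`SV C` speaks about all Borel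
invariant subsets of `C`), and `graph_dichotomy` for `F'` gives `Q1`.
-/

set_option autoImplicit false

namespace Pool.H22.DI

open Set Function Pool.H22.D Pool.H63.MQ

variable {t : ℕ} {F : Set (Σ n : ℕ, SimpleGraph (Fin n))}

/-- the cycle with four vertices -/
private def resbC : SimpleGraph (Fin 4) := SimpleGraph.cycleGraph 4

private theorem resbC_not_acyclic : ¬ resbC.IsAcyclic := by
  intro h
  have h01 : resbC.Adj 0 1 := (by decide : (SimpleGraph.cycleGraph 4).Adj 0 1)
  have h12 : resbC.Adj 1 2 := (by decide : (SimpleGraph.cycleGraph 4).Adj 1 2)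
  have h23 : resbC.Adj 2 3 := (by decide : (SimpleGraph.cycleGraph 4).Adj 2 3)
  have h30 : resbC.Adj 3 0 := (by decide : (SimpleGraph.cycleGraph 4).Adj 3 0)
  refine h (SimpleGraph.Walk.cons h01 (SimpleGraph.Walk.cons h12 (SimpleGraph.Walk.cons h23
    (SimpleGraph.Walk.cons h30 SimpleGraph.Walk.nil)))) ?_
  rw [SimpleGraph.Walk.isCycle_def]
  refine ⟨?_, ?_, ?_⟩
  · rw [SimpleGraph.Walk.isTrail_def]
    simp only [SimpleGraph.Walk.edges_cons, SimpleGraph.Walk.edges_nil]
    decide
  · simp
  · simp only [SimpleGraph.Walk.support_cons, SimpleGraph.Walk.support_nil, List.tail_cons]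
    decide

private theorem resbC_free : ¬ resbC.IsContained Stars := by
  rintro ⟨f⟩
  exact resbC_not_acyclic (stars_acyclic.comap f.toHom f.injective)

private theorem resb_noK {t : ℕ} (ht : 2 ≤ t) {G : SimpleGraph ℕ} (h : ¬ resbC.IsContained G) : NoK t G := by
  intro A B hA hB
  by_contra hcon
  push Not at hcon
  obtain ⟨a, ha, a', ha', haa⟩ := Finset.one_lt_card.1 (show 1 < A.card by omega)
  obtain ⟨b, hb, b', hb', hbb⟩ := Finset.one_lt_card.1 (show 1 < B.card by omega)
  have h1 := hcon a ha b hb
  have h2 := hcon a ha b' hb'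
  have h3 := hcon a' ha' b hb
  have h4 := hcon a' ha' b' hb'
  have e1 := h1.ne
  have e2 := h2.ne
  have e3 := h3.ne
  have e4 := h4.ne
  apply h
  refine ⟨⟨⟨![a, b, a', b'], ?_⟩, ?_⟩⟩
  · intro u v huv
    have huv' : (SimpleGraph.cycleGraph 4).Adj u v := huv
    fin_cases u <;> fin_cases v <;>
      first
        | exact h1
        | exact h2
        | exact h3
        | exact h4
        | exact h1.symm
        | exact h2.symm
        | exact h3.symm
        | exact h4.symm
        | exact absurd huv' (by decide)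
  · intro u v huv
    have huv' : (![a, b, a', b'] : Fin 4 → ℕ) u = (![a, b, a', b'] : Fin 4 → ℕ) v := huv
    fin_cases u <;> fin_cases v <;>
      first
        | rfl
        | exact absurd huv' haa
        | exact absurd huv' hbb
        | exact absurd huv' e1
        | exact absurd huv' e2
        | exact absurd huv' e3
        | exact absurd huv' e4
        | exact absurd huv'.symm haa
        | exact absurd huv'.symm hbb
        | exact absurd huv'.symm e1
        | exact absurd huv'.symm e2
        | exact absurd huv'.symm e3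
        | exact absurd huv'.symm e4

private theorem resb_sub {t : ℕ} (ht : 2 ≤ t) (F : Set (Σ n : ℕ, SimpleGraph (Fin n))) :
    Gf (insert (⟨4, resbC⟩ : Σ n : ℕ, SimpleGraph (Fin n)) F) ⊆ Hg t F := by
  rintro y ⟨G, hG, hF⟩
  refine ⟨G, hG, resb_noK ht (hF _ (mem_insert _ _)), ?_⟩
  rintro H hH ⟨f⟩
  exact hF H (mem_insert_of_mem _ hH) ⟨f.toCopy⟩

theorem hg_hard (ht : 2 ≤ t) (hF : F.Finite) (h : ¬ ∃ H ∈ F, H.2.IsContained Stars)
    (hS : SV (Hg t F)) : Q1 := by
  have hF' : (insert (⟨4, resbC⟩ : Σ n : ℕ, SimpleGraph (Fin n)) F).Finite := hF.insert _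
  have hS' : SV (Gf (insert (⟨4, resbC⟩ : Σ n : ℕ, SimpleGraph (Fin n)) F)) := by
    intro B hB hm hi
    exact hS B (hB.trans (resb_sub ht F)) hm hi
  rcases (graph_dichotomy hF').1 hS' with ⟨H, hH, hc⟩ | hq
  · rcases hH with rfl | hH
    · exact absurd hc resbC_free
    · exact absurd ⟨H, hH, hc⟩ h
  · exact hq

end Pool.H22.DI
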